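import Pool.Agent.Helper58.PB.Defs

/-!
# Project PB: statements, part Z (prime sums twisted by primitive characters, zeros)

Each statement is a `Prop`; the docstring contains a complete proof. A module proves
`theorem hX (dependencies) : StX`. All theorems of project MV are available in `Pool.Agent.Helper23.MV.All`
(namespace `AllMV` there: `aPs1`, `aUn2`, `aGrd`, `aCsh`, `aPid`, `aPkr`, `aNum`, `aZer`, `aFin`, `aSgz`, `aExp`, `aTav`, ..),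
those of project BK in `Pool.Agent.Helper48.BK.Top`, those of project GK in `Pool.Agent.Helper23.GK.All`.
-/

set_option autoImplicit false

namespace Pool.Agent.Helper58.PB

open Finset ArithmeticFunction
open Pool.Agent.Helper48.BK (ex th Sx Apx rr win AdN Admissible Solv Cl thd)
open Pool.Agent.Helper23.GK (cR)
open Pool.Agent.Helper23.MV (PCh PS ZF ZS mwt OKb ta Sc mm Ps Rz mz)

/-- PSK (explicit formula for `x ≤ X^K`, height `0`).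

Proof. Word for word the proof of `StPs1` (`Pool.Agent.Helper23.MV.All.aPs1`, look for the module of PS1) with `t = 0`: the
hypothesis `x ≤ X^2` is only used through `log x ≤ 2 log X`, now `log x ≤ K log X`, and `X0` may depend on `K`:
the bound is `10 X^{η/40}(x^{1-η} + e x X^{-0.6η})` for the shifted part (`x ≥ √X`), plus
`(1 + X^{η/50})(2 log x + 4)` and `x (2 + X^{η/50})(log x + C) 2 X^{-0.3η}`, at most `x X^{-0.26η}` for large `X`. -/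
def StPsk : Prop := ∃ η₁ : ℝ, 0 < η₁ ∧ η₁ ≤ 1 / 100 ∧ ∀ η : ℝ, 0 < η → η ≤ η₁ → ∀ K : ℝ, 2 ≤ K →
  ∃ X0 : ℝ, 2 ≤ X0 ∧ ∀ (X : ℝ) (c : PCh) (x : ℝ), X0 ≤ X → (c.r : ℝ) ≤ X ^ (η / 400) → √X ≤ x →
  x ≤ X ^ K →
  ‖Ps c 0 x - (if c.χ = 1 then (x : ℂ) else 0) +
    ∑ ρ ∈ Rz c η X 0, (mz c ρ : ℂ) * (x : ℂ) ^ ρ / ρ ^ 2‖ ≤ x * X ^ (-(13 * η / 50))

/-- INT (prime sums in intervals).

Proof. `ψ(x) = ∑_{n≤x} Λ(n)c(n)`, `F(x) = Ps c 0 x = ∑_{n ≤ x} Λ(n)c(n) log(x/n)`, `k = X^{-0.13η}`, `ℓ = log(1+k)`. Since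
`F(x(1+k)) - F(x) = ℓ ψ(x) + ∑_{x<n≤x(1+k)} Λ(n)c(n) log(x(1+k)/n)` and the last sum is at most
`ℓ (kx+1) log(2x)`: `ψ(x) = (F(x(1+k)) - F(x))/ℓ + O((kx+1) log(2x))` for `x ≥ √X`. Insert PSK (with `2K`) for the four
points `x, x+l, x(1+k), (x+l)(1+k)` (assume first `x ≥ √X`); the error is `≤ 8(x+l)X^{-0.26η}/ℓ ≤ 16 (x+l) X^{-0.13η}`. For a
power `x^ρ/ρ²` the mixed difference divided by `ℓ` is `(1/ℓ)∫_x^{x+l}∫_0^ℓ u^{ρ-1}e^{vρ} dv du`, of norm at most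
`2 l x^{Re ρ-1} ≤ 2 l X^{(Re ρ-1)/2}` (zeros of `Zex`: `Rz ⊆ ZF c (2η) X`, total at most `2 l ZS o c (2η) X √X`). For the pole
(`c.χ = 1`): `(1/ℓ)∫∫ e^v = l·k/ℓ = l(1 + O(k))`, and `∑_{x<n≤x+l} 1 = l`. For the exceptional zero `1-δ` (if `o = some (c, δ)`; it lies in
`Rz`, multiplicity `1` by `OKb`): `(1/ℓ)∫_x^{x+l} u^{-δ} du ∫_0^ℓ e^{v(1-δ)}dv = (1+O(k)) ∫_x^{x+l} u^{-δ}du`, and
`|∑_{x<n≤x+l} n^{-δ} - ∫| ≤ 1`; these match `mwt o c n`. Prime powers: `∑_{n≤z}(Λ - th) ≤ C√z log² z` (`StTh` of BK).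
If `x < √X`: use the bound `2√X log X` (for `th c - mwt` on `(x, √X]`) and the case `x = ⌈√X⌉`;
`√X log X ≤ (x+l)X^{-η/10}` since `x + l ≥ X^{3/5}`, `η ≤ 1/100`. All logarithms are absorbed: `X^{-0.13η} log² ≤ X^{-η/10}`. -/
def StInt : Prop := ∃ η₁ : ℝ, 0 < η₁ ∧ η₁ ≤ 1 / 100 ∧ ∀ η : ℝ, 0 < η → η ≤ η₁ → ∀ K : ℝ, 2 ≤ K →
  ∃ C X0 : ℝ, 1 ≤ C ∧ 2 ≤ X0 ∧ ∀ (X : ℝ) (o : Option (PCh × ℝ)) (c : PCh) (x l : ℕ), X0 ≤ X →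
  OKb o η → (c.r : ℝ) ≤ X ^ (η / 400) → X ^ (3 / 5 : ℝ) ≤ ((x + l : ℕ) : ℝ) →
  ((x + l : ℕ) : ℝ) ≤ X ^ K →
  ‖∑ n ∈ Ioc x (x + l), (((th n : ℝ) : ℂ) * c.ev n - ((mwt o c n : ℝ) : ℂ))‖ ≤
    C * (l * ZS o c (2 * η) X (√X) + ((x + l : ℕ) : ℝ) * X ^ (-(η / 10)))

/-- AVE (short averages). Proof. `L·Av c L n = ∑_{n-L<k≤n} th(k)c(k)`, INT with `x = n - L`, `l = L`, `x + l = n`; divide by
`L`. -/
def StAve : Prop := ∃ η₁ : ℝ, 0 < η₁ ∧ η₁ ≤ 1 / 100 ∧ ∀ η : ℝ, 0 < η → η ≤ η₁ → ∀ K : ℝ, 2 ≤ K →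
  ∃ C X0 : ℝ, 1 ≤ C ∧ 2 ≤ X0 ∧ ∀ (X : ℝ) (o : Option (PCh × ℝ)) (c : PCh) (n L : ℕ), X0 ≤ X →
  OKb o η → (c.r : ℝ) ≤ X ^ (η / 400) → X ^ (3 / 5 : ℝ) ≤ n → (n : ℝ) ≤ X ^ K → 1 ≤ L → L ≤ n →
  ‖Av c L n - (((1 / (L : ℝ)) * ∑ j ∈ range L, mwt o c ((n - j : ℕ) : ℝ) : ℝ) : ℂ)‖ ≤
    C * (ZS o c (2 * η) X (√X) + (n : ℝ) / L * X ^ (-(η / 10)))

/-- TWS (twisted sums on the major arc around `0`, all characters together).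

`P ≤ X^{η/1000}`, `∑_{c ∈ PS P} ZS o c (2η) X √X ≤ E ≤ 1`, scale `Y ∈ [X, X^K]`, `|β| ≤ P^{20}/Y`.

Proof. Let `y ≤ Y`, `ℓ = ⌈Y/P^{30}⌉`. Cut `(0, y]` into intervals `(z, z']` of length at most `ℓ`, at most `P^{30} + 1` of
them. On an interval `|e(nβ) - e(zβ)| ≤ 2π|β|ℓ ≤ 4πP^{-10}`; so `|Tc c y β| ≤ ∑ |∑_{z<n≤z'} th(n)c(n)| + 4πP^{-10}∑_{n≤y} th(n)`
and `∑_{n≤y} th ≤ 2Y` (Chebyshev: `Chebyshev.theta_le` or `∑_{n ≤ y} Λ ≤ log 4 · y + ..`; any bound `≤ C Y` suffices). If `z' ≥ X^{3/5}`: INT (the interval ends at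
`z' ≤ Y`): `|∑ th c| ≤ |∑ mwt| + C((z'-z) ZS + Y X^{-η/10})`; if `z' < X^{3/5}` the trivial bound: together at most
`X^{3/5} log X`. Sum over the intervals: `≤ ∑_{n ≤ y}|mwt o c n| + C(Y·ZS + 2P^{30} Y X^{-η/10}) + X^{3/5} log X + CP^{-10}Y`. Sum over
`c ∈ PS P` (at most `2P²` characters: `#{c : c.r = r} ≤ φ(r) ≤ r`): the first part at most `2Y` (`mwt` is `0` unless `c` is trivial or exceptional,
there is one trivial `PCh`), the second `C(E Y + 4P^{32} Y X^{-η/10})`, the rest `≤ Y` for large `X`. If `X0` is large (so `P` may be bounded: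
the hypothesis `P0 ≤ P` makes `2P²·CP^{-10} ≤ 1`). Total at most `(2 + C E + 1) Y`. -/
def StTws : Prop := ∃ η₁ : ℝ, 0 < η₁ ∧ η₁ ≤ 1 / 100 ∧ ∀ η : ℝ, 0 < η → η ≤ η₁ → ∀ K : ℝ, 2 ≤ K →
  ∃ C X0 P0 : ℝ, 1 ≤ C ∧ 2 ≤ X0 ∧ 2 ≤ P0 ∧ ∀ (X P E β : ℝ) (o : Option (PCh × ℝ)) (Y y : ℕ), X0 ≤ X →
  P0 ≤ P → P ≤ X ^ (η / 1000) → OKb o η → ∑ c ∈ PS P, ZS o c (2 * η) X (√X) ≤ E →
  X ≤ Y → (Y : ℝ) ≤ X ^ K → y ≤ Y → |β| ≤ P ^ 20 / Y →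
  ∑ c ∈ PS P, ‖Tc c y β‖ ≤ (3 + C * E) * Y

/-- RLG (conjugation symmetry). Proof. The conjugate character `c' = ⟨c.r, c.hr, c.χ⁻¹, _⟩`
(`DirichletCharacter.conductor_inv`) belongs to `PS P` iff `c` does (`aFin`), `c ↦ c'` is an involution, `c'.ev n = conj (c.ev n)`
(values of a Dirichlet character are `0` or of norm `1`: `c.χ⁻¹ a = conj (c.χ a)`), so `Av c' L n = conj`, `wt Q c' n = conj`; a sum
of a function with `f c' = conj (f c)` over a symmetric finite set is real (`Finset.sum_nbij` / `Finset.sum_involution`). -/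
def StRlg : Prop := (∀ (P : ℝ) (L n u : ℕ),
    (∑ c ∈ PS P, (starRingEnd ℂ) (c.ev u) * Av c L n).im = 0) ∧
  ∀ (P : ℝ) (Q L n u : ℕ), (∑ c ∈ PS P, wt Q c u * Av c L n).im = 0

/-- data of part Z at the base scale `Z`: a parameter `P`, a lower bound `t` (`= 0.3 min(1, δ log Z)`), such that at all
scales `X ∈ [Z, Z^K]` the short averages have a positive model -/
def Dat (K Z P t : ℝ) : Prop :=
  ∀ (X L : ℕ), Z ≤ X → (X : ℝ) ≤ Z ^ K → (X : ℝ) / (2 * P ^ 200) ≤ L → (L : ℝ) ≤ X / P ^ 200 →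
    (∀ n : ℕ, (X : ℝ) / P ≤ n → n ≤ 2 * X → ∑ c ∈ PS P, ‖Av c L n‖ ≤ 3 ∧
      ∀ u : ℕ, (∀ p : ℕ, p.Prime → (p : ℝ) ≤ P → ¬ p ∣ u) →
        t ≤ (∑ c ∈ PS P, (starRingEnd ℂ) (c.ev u) * Av c L n).re) ∧
    ∀ (y : ℕ) (β : ℝ), y ≤ X → |β| ≤ P ^ 20 / X → ∑ c ∈ PS P, ‖Tc c y β‖ ≤ 5 * X

/-- ZFN (final statement of part Z).

Proof. Let `η` be the minimum of the constants of ZER (`aZer`), AVE, TWS and `100000 κ`; `C` the maximum of the constants of AVE and TWS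
for `η` and `2K`, `ε = 1/(100 C)`. ZER gives `δ₀ ≤ η/100000 ≤ κ`, and for `Z ≥ Z0` a `P ∈ [Z^{δ₀/2}, Z^{δ₀}]` and `o`
(`none` or `some (e, δ)` with `OKb o η`, `e.r² ≤ P`, so `e ∈ PS P`), with `∑_{c ∈ PS P} ZS ≤ ε m²`, `m = 1` or `m = min(1, δ log Z)`,
`m² ≥ P^{-1/100}`. Put `t = 0.3 m`, so `t ≥ 0.3 P^{-1/200} ≥ P^{-1/100}`, `t ≤ 1`. Conductors: `c.r ≤ P ≤ Z^{δ₀} ≤ Z^{η/100000}`. Let `Z ≤ X ≤ Z^K`,
`L` as in `Dat` (`L ≥ 1` as `P^{200} ≤ Z^{1/100}`), `X/P ≤ n ≤ 2X`: so `n ≥ Z^{1-δ₀} ≥ Z^{3/5}`, `n ≤ Z^{2K}`, `L ≤ n/2`, `n/L ≤ 4P^{200} ≤ Z^{η/400}`.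
AVE: `Av c L n = M_c + O(C(ZS + Z^{-η/10+η/400}))`, `M_c = (1/L)∑_j mwt o c (n-j)`; the sum over `PS P` (at most `2P²`
elements) of the errors is at most `C(ε m² + Z^{-η/20}) ≤ m²/50` (`Z^{-η/20} ≤ εP^{-1/100} ≤ ε m²`). `M_c = 0` unless `c` is trivial (then
`M_c = 1`, exactly one such `PCh`, conductor `1`) or `c = e` (then `|M_e| ≤ 1`): first claim `≤ 2 + 1/50`. Second claim: if `u` is prime to
all primes `≤ P`, then `u` is prime to `e.r`, `conj(e.ev u) = ±1`, so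
`Re ∑ conj(c.ev u) M_c ≥ 1 - (1/L)∑_j (n-j)^{-δ} ≥ 1 - (Z^{1/2})^{-δ} = 1 - e^{-δ log Z/2} ≥ 0.39 m` (`n - j ≥ n/2 ≥ √Z`; `1 - e^{-x/2} ≥
0.39 min(1,x)` by concavity), and `0.39m - m²/50 ≥ 0.3m`. Third claim: TWS with `E = ε m² ≤ ε`: `3 + Cε ≤ 5`. -/
def StZfn : Prop := ∀ K κ : ℝ, 2 ≤ K → 0 < κ → ∃ δ₀ Z0 : ℝ, 0 < δ₀ ∧ δ₀ ≤ κ ∧ 2 ≤ Z0 ∧
  ∀ Z : ℝ, Z0 ≤ Z → ∃ P t : ℝ, Z ^ (δ₀ / 2) ≤ P ∧ P ≤ Z ^ δ₀ ∧ P ^ (-(1 / 100) : ℝ) ≤ t ∧ t ≤ 1 ∧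
    Dat K Z P t

end Pool.Agent.Helper58.PB
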