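import Pool.Agent.Helper58.PB.StA

/-!
# Project PB: conversion of the final statement into the form of the hand-in
-/

set_option autoImplicit false

namespace Pool.Agent.Helper58.PB

open Finset

/-- conversion of `StInp` -/
theorem final_of_inp (h : StInp) : ∀ μ : ℝ, 1 < μ → ∃ δ : ℝ, 0 < δ ∧ ∃ m₀ : ℕ, ∀ N m : ℕ,
    m₀ ≤ m → 1 ≤ N → N ≤ m →
    ({v : ℤ × ℤ × ℤ | (|v.1| ≤ N ∧ |v.2.1| ≤ N ∧ |v.2.2| ≤ m) ∧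
      ∃ d : ℤ, Pool.Agent.Helper48.BK.Admissible v.1 v.2.1 v.2.2 d ∧
        ¬ ∃ p q r : ℕ, p.Prime ∧ q.Prime ∧ r.Prime ∧ v.1 * p + v.2.1 * q + v.2.2 * r = d ∧
          ((max p (max q r) : ℕ) : ℝ) ≤
            min (3 * |(d : ℝ)| + ((max 3 (max |v.1| (max |v.2.1| |v.2.2|)) : ℤ) : ℝ) ^ μ)
              ((|(d : ℝ)| / N + m) * (m : ℝ) ^ (μ - 1))}.ncard : ℝ) ≤
      (N : ℝ) ^ 2 * (m : ℝ) ^ (1 - δ) := by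
  classical
  intro μ hμ
  obtain ⟨δ, hδ, m₀, hm⟩ := h μ hμ
  refine ⟨δ, hδ, m₀, fun N m h1 h2 h3 => le_trans ?_ (hm N m h1 h2 h3)⟩
  rw [← Set.ncard_coe_finset]
  have hsub : {v : ℤ × ℤ × ℤ | (|v.1| ≤ N ∧ |v.2.1| ≤ N ∧ |v.2.2| ≤ m) ∧
      ∃ d : ℤ, Pool.Agent.Helper48.BK.Admissible v.1 v.2.1 v.2.2 d ∧
        ¬ ∃ p q r : ℕ, p.Prime ∧ q.Prime ∧ r.Prime ∧ v.1 * p + v.2.1 * q + v.2.2 * r = d ∧
          ((max p (max q r) : ℕ) : ℝ) ≤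
            min (3 * |(d : ℝ)| + ((max 3 (max |v.1| (max |v.2.1| |v.2.2|)) : ℤ) : ℝ) ^ μ)
              ((|(d : ℝ)| / N + m) * (m : ℝ) ^ (μ - 1))} ⊆
      ((((Icc (-(N : ℤ)) N) ×ˢ (Icc (-(N : ℤ)) N) ×ˢ (Icc (-(m : ℤ)) m)).filter
        (fun v : ℤ × ℤ × ℤ => ∃ d : ℤ, Pool.Agent.Helper48.BK.Admissible v.1 v.2.1 v.2.2 d ∧
          ¬ Pool.Agent.Helper48.BK.Solv v.1 v.2.1 v.2.2 d
            (bd μ N m ((max 3 (max |v.1| (max |v.2.1| |v.2.2|)) : ℤ) : ℝ) d)) :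
        Finset (ℤ × ℤ × ℤ)) : Set (ℤ × ℤ × ℤ)) := by
    rintro v ⟨⟨ha, hb, hc⟩, d, hd1, hd2⟩
    rw [Finset.mem_coe, Finset.mem_filter, Finset.mem_product, Finset.mem_product,
      Finset.mem_Icc, Finset.mem_Icc, Finset.mem_Icc]
    exact ⟨⟨abs_le.1 ha, abs_le.1 hb, abs_le.1 hc⟩, d, hd1, hd2⟩
  exact_mod_cast Set.ncard_le_ncard hsub (Finset.finite_toSet _)

end Pool.Agent.Helper58.PB
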