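import Pool.Agent.Helper58.PB.StS
import Pool.Agent.Helper23.MV.StC
import Pool.Agent.Helper23.MV.StE

set_option autoImplicit false

namespace Pool.Agent.Helper58.PB

open Finset ArithmeticFunction
open Pool.Agent.Helper48.BK (ex th Sx Apx rr win AdN Admissible Solv Cl thd nd)
open Pool.Agent.Helper23.GK (cR)
open Pool.Agent.Helper23.MV (PCh PS ZF ZS mwt OKb ta Sc mm)

namespace NR

theorem ex_add' (s t : ℝ) : ex (s + t) = ex s * ex t := by
  unfold ex
  rw [← Complex.exp_add]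
  congr 1
  push_cast
  ring

theorem ex_norm' (t : ℝ) : ‖ex t‖ = 1 := by
  unfold ex
  have h : (2 * Real.pi * t * Complex.I : ℂ) = ((2 * Real.pi * t : ℝ) : ℂ) * Complex.I := by
    push_cast; ring
  rw [h, Complex.norm_exp_ofReal_mul_I]

theorem ex_int' (k : ℤ) : ex (k : ℝ) = 1 := by
  unfold ex
  rw [Complex.exp_eq_one_iff]
  exact ⟨k, by push_cast; ring⟩

theorem ex_shift (t : ℝ) (k : ℤ) : ex (t + k) = ex t := by
  rw [ex_add', ex_int', mul_one]

theorem kk_shift (L : ℕ) (β : ℝ) (k : ℤ) : kk L (β + k) = kk L β := by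
  unfold kk
  congr 1
  refine sum_congr rfl fun j _ => ?_
  have h : (j : ℝ) * (β + k) = j * β + ((j * k : ℤ) : ℝ) := by push_cast; ring
  rw [h, ex_shift]

theorem Tc_shift (c : PCh) (y : ℕ) (β : ℝ) (k : ℤ) : Tc c y (β + k) = Tc c y β := by
  unfold Tc
  refine sum_congr rfl fun j _ => ?_
  have h : (j : ℝ) * (β + k) = j * β + ((j * k : ℤ) : ℝ) := by push_cast; ring
  rw [h, ex_shift]

theorem nd_sub_abs (x β : ℝ) : nd x - |β| ≤ nd (x + β) := by
  unfold nd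
  have h1 : |x - round x| ≤ |x - round (x + β)| := round_le x _
  have h2 : |x - round (x + β)| ≤ |x + β - round (x + β)| + |β| := by
    have h : x - round (x + β) = (x + β - round (x + β)) + (-β) := by ring
    rw [h]
    exact (abs_add_le _ _).trans (by rw [abs_neg])
  linarith

theorem nd_frac (K : ℤ) (m : ℕ) (hm : 1 ≤ m) (h : ¬ (m : ℤ) ∣ K) : 1 / (m : ℝ) ≤ nd ((K : ℝ) / m) := by
  unfold nd
  have hm0 : (0 : ℝ) < m := by exact_mod_cast hm
  set r := round ((K : ℝ) / m) with hr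
  have h1 : (K : ℝ) / m - r = ((K - m * r : ℤ) : ℝ) / m := by
    push_cast
    field_simp
  rw [h1, abs_div, abs_of_pos hm0]
  gcongr
  have h2 : K - m * r ≠ 0 := by
    intro h3
    exact h ⟨r, by linarith⟩
  have h3 : (1 : ℤ) ≤ |K - m * r| := Int.one_le_abs h2
  exact_mod_cast h3

theorem expand (hW : StWex) (P : ℝ) (Q L y : ℕ) (α : ℝ) :
    ∑ n ∈ Ioc 0 y, Gc P Q L n * ex (n * α) =
    ∑ c ∈ PS P, ∑ s ∈ (Icc 1 Q).filter (fun s => Nat.Coprime s c.r),
      ∑ a ∈ (range (c.r * s)).filter (fun a => Nat.Coprime a (c.r * s)),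
        kap c (c.r * s) a *
          ∑ n ∈ Ioc 0 y, Av c L n * ex (n * (α - (a : ℝ) / ((c.r * s : ℕ) : ℝ))) := by
  unfold Gc
  simp only [sum_mul]
  rw [sum_comm]
  refine sum_congr rfl fun c _ => ?_
  have h1 : ∀ n : ℕ, wt Q c n * Av c L n * ex (n * α) =
      ∑ s ∈ (Icc 1 Q).filter (fun s => Nat.Coprime s c.r),
      ∑ a ∈ (range (c.r * s)).filter (fun a => Nat.Coprime a (c.r * s)),
        kap c (c.r * s) a * (Av c L n * ex (n * (α - (a : ℝ) / ((c.r * s : ℕ) : ℝ)))) := by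
    intro n
    rw [hW c Q n, sum_mul, sum_mul]
    refine sum_congr rfl fun s _ => ?_
    rw [sum_mul, sum_mul]
    refine sum_congr rfl fun a _ => ?_
    have h2 : (n : ℝ) * (α - (a : ℝ) / ((c.r * s : ℕ) : ℝ)) =
        -((a : ℝ) * n / ((c.r * s : ℕ) : ℝ)) + n * α := by ring
    rw [h2, ex_add']
    ring
  rw [sum_congr rfl fun n _ => h1 n, sum_comm]
  refine sum_congr rfl fun s _ => ?_
  rw [sum_comm]
  refine sum_congr rfl fun a _ => ?_
  rw [mul_sum]

/-- main estimate -/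
theorem main (hW : StWex) (hC : StCvl) (hK : StKer) (hT : StTa1) (hP : StCps)
    (h0 : Pool.Agent.Helper23.MV.StFin)
    (P : ℝ) (X Q L y : ℕ) (α : ℝ) (hP2 : 2 ≤ P)
    (hPX : P ≤ (X : ℝ) ^ (1 / 5000 : ℝ)) (hlog : Real.log X ≤ P ^ (1 / 100 : ℝ))
    (hQ : (Q : ℝ) ≤ P ^ 50) (hL1 : (X : ℝ) / (2 * P ^ 200) ≤ L) (hL2 : (L : ℝ) ≤ X / P ^ 200)
    (hy : y ≤ X) (q₁ a₁ : ℕ)
    (hfar : ∀ (c : PCh) (s a : ℕ), c ∈ PS P → 1 ≤ s → s ≤ Q → a < c.r * s →
      Nat.Coprime a (c.r * s) → ¬ (c.r * s = q₁ ∧ a = a₁) →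
      1 / (2 * ((⌊P⌋₊ * Q : ℕ) : ℝ) ^ 2) ≤ nd (α - (a : ℝ) / ((c.r * s : ℕ) : ℝ))) :
    ‖∑ n ∈ Ioc 0 y, Gc P Q L n * ex (n * α) -
      ∑ c ∈ PS P, ∑ s ∈ (Icc 1 Q).filter (fun s => Nat.Coprime s c.r),
      ∑ a ∈ (range (c.r * s)).filter (fun a => Nat.Coprime a (c.r * s)),
        (if c.r * s = q₁ ∧ a = a₁ then
          kap c (c.r * s) a * (kk L (α - (a : ℝ) / ((c.r * s : ℕ) : ℝ)) *
            Tc c y (α - (a : ℝ) / ((c.r * s : ℕ) : ℝ))) else 0)‖ ≤ X * P ^ (-80 : ℝ) := by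
  have hP0 : (0 : ℝ) < P := by linarith
  have hP1 : (1 : ℝ) ≤ P := by linarith
  -- X is large
  have hX5 : P ^ 5000 ≤ (X : ℝ) := by
    have h1 : P ^ 5000 ≤ ((X : ℝ) ^ (1 / 5000 : ℝ)) ^ 5000 := pow_le_pow_left₀ hP0.le hPX 5000
    have h2 : ((X : ℝ) ^ (1 / 5000 : ℝ)) ^ 5000 = X := by
      rw [← Real.rpow_natCast, ← Real.rpow_mul (by positivity)]
      norm_num
    rw [h2] at h1
    exact h1
  have hX490 : P ^ 490 ≤ (X : ℝ) := (pow_le_pow_right₀ hP1 (by norm_num)).trans hX5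
  have hX0 : (0 : ℝ) < X := lt_of_lt_of_le (by positivity) hX490
  have hL0 : (0 : ℝ) < L := lt_of_lt_of_le (by positivity) hL1
  have hL0' : 1 ≤ L := by exact_mod_cast hL0
  rcases Nat.eq_zero_or_pos y with hy0 | hy0
  · subst hy0
    have h1 : ∀ (c : PCh) (β : ℝ), Tc c 0 β = 0 := by intro c β; unfold Tc; simp
    simp only [Finset.Ioc_self, sum_empty, h1, mul_zero, ite_self, sum_const_zero, sub_zero,
      norm_zero]
    positivity
  set B : ℝ := L * Real.log y + 8 * ((⌊P⌋₊ * Q : ℕ) : ℝ) ^ 2 * y / L with hB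
  have hy1 : (1 : ℝ) ≤ y := by exact_mod_cast hy0
  have hly : 0 ≤ Real.log y := Real.log_nonneg hy1
  have hB0 : 0 ≤ B := by rw [hB]; positivity
  -- each term
  have hterm : ∀ (c : PCh) (s a : ℕ), c ∈ PS P → 1 ≤ s → s ≤ Q → a < c.r * s →
      Nat.Coprime a (c.r * s) →
      ‖kap c (c.r * s) a * ∑ n ∈ Ioc 0 y, Av c L n * ex (n * (α - (a : ℝ) / ((c.r * s : ℕ) : ℝ))) -
        (if c.r * s = q₁ ∧ a = a₁ then
          kap c (c.r * s) a * (kk L (α - (a : ℝ) / ((c.r * s : ℕ) : ℝ)) *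
            Tc c y (α - (a : ℝ) / ((c.r * s : ℕ) : ℝ))) else 0)‖ ≤ B := by
    intro c s a hc hs1 hs2 ha1 ha2
    have hr0 : 1 ≤ c.r := Nat.one_le_iff_ne_zero.2 c.hr
    have hrs : 1 ≤ c.r * s := Nat.one_le_iff_ne_zero.2 (Nat.mul_ne_zero c.hr (by omega))
    obtain ⟨C, _, hC3⟩ := hT.2.2
    have hkap : ‖kap c (c.r * s) a‖ ≤ 1 := (hC3 c (c.r * s) a hrs (Dvd.intro _ rfl)).1
    set γ : ℝ := α - (a : ℝ) / ((c.r * s : ℕ) : ℝ) with hγ
    have hcv := hC c L y γ hL0' hy0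
    split_ifs with hn
    · rw [← mul_sub, norm_mul]
      calc ‖kap c (c.r * s) a‖ * ‖∑ n ∈ Ioc 0 y, Av c L n * ex (n * γ) - kk L γ * Tc c y γ‖
          ≤ 1 * (L * Real.log y) := by gcongr
        _ ≤ B := by
          rw [hB, one_mul]
          have : 0 ≤ 8 * ((⌊P⌋₊ * Q : ℕ) : ℝ) ^ 2 * y / L := by positivity
          linarith
    · rw [sub_zero, norm_mul]
      have hnd := hfar c s a hc hs1 hs2 ha1 ha2 hn
      have hD : (0 : ℝ) < ((⌊P⌋₊ * Q : ℕ) : ℝ) := by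
        have h1 : 1 ≤ ⌊P⌋₊ := Nat.one_le_iff_ne_zero.2 (by
          intro h
          rw [Nat.floor_eq_zero] at h
          linarith)
        have h2 : 1 ≤ Q := hs1.trans hs2
        exact_mod_cast Nat.mul_pos h1 h2
      have hnd0 : 0 < nd γ := lt_of_lt_of_le (by positivity) hnd
      have hkk : ‖kk L γ‖ ≤ 1 / (L * nd γ) := (hK L γ hL0').2.1 hnd0
      have hkk2 : ‖kk L γ‖ ≤ 2 * ((⌊P⌋₊ * Q : ℕ) : ℝ) ^ 2 / L := by
        refine hkk.trans ?_
        rw [div_le_div_iff₀ (by positivity) hL0]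
        have h1 : 1 ≤ 2 * ((⌊P⌋₊ * Q : ℕ) : ℝ) ^ 2 * nd γ := by
          rw [div_le_iff₀ (by positivity)] at hnd
          linarith
        nlinarith
      have hTc : ‖Tc c y γ‖ ≤ 4 * y := by
        unfold Tc
        refine (norm_sum_le _ _).trans ((sum_le_sum fun n _ => ?_).trans (hP.2.2 y))
        rw [norm_mul, norm_mul, ex_norm', mul_one]
        have h1 : ‖c.ev n‖ ≤ 1 := by
          haveI : NeZero c.r := ⟨c.hr⟩
          exact DirichletCharacter.norm_le_one c.χ _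
        have h2 : ‖((th n : ℝ) : ℂ)‖ = th n := by
          rw [Complex.norm_real, Real.norm_eq_abs, abs_of_nonneg]
          unfold th
          split_ifs with hpr
          · exact Real.log_nonneg (by exact_mod_cast hpr.one_lt.le)
          · exact le_rfl
        rw [h2]
        have h3 : 0 ≤ th n := by
          unfold th
          split_ifs with hpr
          · exact Real.log_nonneg (by exact_mod_cast hpr.one_lt.le)
          · exact le_rfl
        nlinarith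
      calc ‖kap c (c.r * s) a‖ * ‖∑ n ∈ Ioc 0 y, Av c L n * ex (n * γ)‖
          ≤ 1 * (L * Real.log y + (2 * ((⌊P⌋₊ * Q : ℕ) : ℝ) ^ 2 / L) * (4 * y)) := by
            gcongr
            have h5 : ∑ n ∈ Ioc 0 y, Av c L n * ex (n * γ) =
                (∑ n ∈ Ioc 0 y, Av c L n * ex (n * γ) - kk L γ * Tc c y γ) + kk L γ * Tc c y γ := by
              ring
            rw [h5]
            refine (norm_add_le _ _).trans ?_
            rw [norm_mul]
            gcongr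
        _ = B := by rw [hB]; ring
  -- total
  rw [expand hW, ← sum_sub_distrib]
  simp only [← sum_sub_distrib]
  have hcardA : ∀ c ∈ PS P, ∀ s ∈ (Icc 1 Q).filter (fun s => Nat.Coprime s c.r),
      ((((range (c.r * s)).filter (fun a => Nat.Coprime a (c.r * s))).card : ℕ) : ℝ) ≤ P * Q := by
    intro c hc s hs
    rw [mem_filter, mem_Icc] at hs
    have h1 : ((range (c.r * s)).filter (fun a => Nat.Coprime a (c.r * s))).card ≤ c.r * s :=
      (card_filter_le _ _).trans (by rw [card_range])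
    have h2 : (c.r : ℝ) ≤ P := (h0.1 P c).1 hc
    calc ((((range (c.r * s)).filter (fun a => Nat.Coprime a (c.r * s))).card : ℕ) : ℝ)
        ≤ ((c.r * s : ℕ) : ℝ) := by exact_mod_cast h1
      _ = c.r * s := by push_cast; ring
      _ ≤ P * Q := by
        have h3 : (s : ℝ) ≤ Q := by exact_mod_cast hs.1.2
        gcongr
  have hsum : ‖∑ c ∈ PS P, ∑ s ∈ (Icc 1 Q).filter (fun s => Nat.Coprime s c.r),
      ∑ a ∈ (range (c.r * s)).filter (fun a => Nat.Coprime a (c.r * s)),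
      (kap c (c.r * s) a * ∑ n ∈ Ioc 0 y, Av c L n * ex (n * (α - (a : ℝ) / ((c.r * s : ℕ) : ℝ))) -
        (if c.r * s = q₁ ∧ a = a₁ then
          kap c (c.r * s) a * (kk L (α - (a : ℝ) / ((c.r * s : ℕ) : ℝ)) *
            Tc c y (α - (a : ℝ) / ((c.r * s : ℕ) : ℝ))) else 0))‖ ≤
      P ^ 2 * (Q * ((P * Q) * B)) := by
    have hin : ∀ c ∈ PS P, ‖∑ s ∈ (Icc 1 Q).filter (fun s => Nat.Coprime s c.r),
      ∑ a ∈ (range (c.r * s)).filter (fun a => Nat.Coprime a (c.r * s)),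
      (kap c (c.r * s) a * ∑ n ∈ Ioc 0 y, Av c L n * ex (n * (α - (a : ℝ) / ((c.r * s : ℕ) : ℝ))) -
        (if c.r * s = q₁ ∧ a = a₁ then
          kap c (c.r * s) a * (kk L (α - (a : ℝ) / ((c.r * s : ℕ) : ℝ)) *
            Tc c y (α - (a : ℝ) / ((c.r * s : ℕ) : ℝ))) else 0))‖ ≤ Q * ((P * Q) * B) := by
      intro c hc
      have hin2 : ∀ s ∈ (Icc 1 Q).filter (fun s => Nat.Coprime s c.r),
        ‖∑ a ∈ (range (c.r * s)).filter (fun a => Nat.Coprime a (c.r * s)),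
        (kap c (c.r * s) a *
          ∑ n ∈ Ioc 0 y, Av c L n * ex (n * (α - (a : ℝ) / ((c.r * s : ℕ) : ℝ))) -
        (if c.r * s = q₁ ∧ a = a₁ then
          kap c (c.r * s) a * (kk L (α - (a : ℝ) / ((c.r * s : ℕ) : ℝ)) *
            Tc c y (α - (a : ℝ) / ((c.r * s : ℕ) : ℝ))) else 0))‖ ≤ (P * Q) * B := by
        intro s hs
        have hs' := hs
        rw [mem_filter, mem_Icc] at hs'
        refine (norm_sum_le_of_le (n := fun _ => B) _ (fun a ha => ?_)).trans ?_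
        · rw [mem_filter, mem_range] at ha
          exact hterm c s a hc hs'.1.1 hs'.1.2 ha.1 ha.2
        · rw [sum_const, nsmul_eq_mul]
          exact mul_le_mul_of_nonneg_right (hcardA c hc s hs) hB0
      refine (norm_sum_le_of_le _ hin2).trans ?_
      rw [sum_const, nsmul_eq_mul]
      refine mul_le_mul_of_nonneg_right ?_ (by positivity)
      have h1 : ((Icc 1 Q).filter (fun s => Nat.Coprime s c.r)).card ≤ Q :=
        (card_filter_le _ _).trans (by simp)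
      exact_mod_cast h1
    refine (norm_sum_le_of_le _ hin).trans ?_
    rw [sum_const, nsmul_eq_mul]
    exact mul_le_mul_of_nonneg_right (hP.1 P hP1) (by positivity)
  refine hsum.trans ?_
  -- numerics
  have hlogy : Real.log y ≤ P := by
    have h1 : Real.log y ≤ Real.log X := Real.log_le_log (by linarith) (by exact_mod_cast hy)
    have h2 : P ^ (1 / 100 : ℝ) ≤ P ^ (1 : ℝ) :=
      Real.rpow_le_rpow_of_exponent_le hP1 (by norm_num)
    rw [Real.rpow_one] at h2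
    linarith
  have hDP : ((⌊P⌋₊ * Q : ℕ) : ℝ) ≤ P ^ 51 := by
    push_cast
    have h1 : ((⌊P⌋₊ : ℕ) : ℝ) ≤ P := Nat.floor_le hP0.le
    calc ((⌊P⌋₊ : ℕ) : ℝ) * Q ≤ P * P ^ 50 := by gcongr
      _ = P ^ 51 := by ring
  have hyL : (y : ℝ) / L ≤ 2 * P ^ 200 := by
    rw [div_le_iff₀ hL0]
    rw [div_le_iff₀ (by positivity)] at hL1
    have h1 : (y : ℝ) ≤ X := by exact_mod_cast hy
    nlinarith
  have hBle : B ≤ X / P ^ 199 + 16 * P ^ 302 := by
    rw [hB]
    have h1 : (L : ℝ) * Real.log y ≤ X / P ^ 200 * P := by gcongr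
    have h2 : (X : ℝ) / P ^ 200 * P = X / P ^ 199 := by
      field_simp
    have h3 : 8 * ((⌊P⌋₊ * Q : ℕ) : ℝ) ^ 2 * y / L = 8 * ((⌊P⌋₊ * Q : ℕ) : ℝ) ^ 2 * (y / L) := by ring
    have h4 : 8 * ((⌊P⌋₊ * Q : ℕ) : ℝ) ^ 2 * (y / L) ≤ 8 * (P ^ 51) ^ 2 * (2 * P ^ 200) := by gcongr
    have h5 : 8 * (P ^ 51) ^ 2 * (2 * P ^ 200) = 16 * P ^ 302 := by ring
    rw [h3]
    linarith
  have hN : P ^ 2 * (Q * ((P * Q) * B)) ≤ P ^ 103 * B := by
    have h1 : P ^ 2 * (Q * ((P * Q) * B)) = (P ^ 3 * ((Q : ℝ) * Q)) * B := by ring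
    have h2 : P ^ 3 * ((Q : ℝ) * Q) ≤ P ^ 3 * (P ^ 50 * P ^ 50) := by gcongr
    have h3 : P ^ 3 * (P ^ 50 * P ^ 50) = P ^ 103 := by ring
    rw [h1]
    exact mul_le_mul_of_nonneg_right (by linarith) hB0
  refine hN.trans ?_
  have h80 : P ^ (-80 : ℝ) = (P ^ 80)⁻¹ := by
    rw [Real.rpow_neg hP0.le]
    congr 1
    exact_mod_cast Real.rpow_natCast P 80
  rw [h80]
  have hA1 : P ^ 103 * (X / P ^ 199) ≤ (1 / 2) * (X * (P ^ 80)⁻¹) := by
    have h1 : P ^ 103 * (X / P ^ 199) = X * (P ^ 80)⁻¹ * (P ^ 16)⁻¹ := by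
      field_simp
    rw [h1]
    have h2 : (P ^ 16)⁻¹ ≤ 1 / 2 := by
      rw [inv_le_comm₀ (by positivity) (by norm_num)]
      calc ((1 / 2 : ℝ))⁻¹ = 2 := by norm_num
        _ ≤ P := hP2
        _ ≤ P ^ 16 := le_self_pow₀ hP1 (by norm_num)
    have h3 : 0 ≤ X * (P ^ 80)⁻¹ := by positivity
    nlinarith
  have hA2 : P ^ 103 * (16 * P ^ 302) ≤ (1 / 2) * (X * (P ^ 80)⁻¹) := by
    have h1 : P ^ 410 ≤ X * (P ^ 80)⁻¹ := by
      rw [← div_eq_mul_inv, le_div_iff₀ (by positivity)]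
      calc P ^ 410 * P ^ 80 = P ^ 490 := by ring
        _ ≤ (X : ℝ) := hX490
    have h2 : (32 : ℝ) ≤ P ^ 5 := by
      calc (32 : ℝ) = 2 ^ 5 := by norm_num
        _ ≤ P ^ 5 := pow_le_pow_left₀ (by norm_num) hP2 5
    have h3 : P ^ 103 * (16 * P ^ 302) * 2 ≤ P ^ 410 := by
      calc P ^ 103 * (16 * P ^ 302) * 2 = 32 * P ^ 405 := by ring
        _ ≤ P ^ 5 * P ^ 405 := by gcongr
        _ = P ^ 410 := by ring
    linarith
  calc P ^ 103 * B ≤ P ^ 103 * (X / P ^ 199 + 16 * P ^ 302) := by gcongr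
    _ = P ^ 103 * (X / P ^ 199) + P ^ 103 * (16 * P ^ 302) := by ring
    _ ≤ X * (P ^ 80)⁻¹ := by linarith

end NR

theorem hNrn (hW : StWex) (hC : StCvl) (hK : StKer) (hT : StTa1) (hP : StCps)
    (h0 : Pool.Agent.Helper23.MV.StFin) : StNrn := by
  refine ⟨2, le_rfl, fun P X Q L y α hP2 hPX hlog hQ _ hL1 hL2 hy hfar => ?_⟩
  have h := NR.main hW hC hK hT hP h0 P X Q L y α hP2 hPX hlog hQ hL1 hL2 hy 0 0 ?_
  · have hz : ∑ c ∈ PS P, ∑ s ∈ (Icc 1 Q).filter (fun s => Nat.Coprime s c.r),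
      ∑ a ∈ (range (c.r * s)).filter (fun a => Nat.Coprime a (c.r * s)),
        (if c.r * s = 0 ∧ a = 0 then
          kap c (c.r * s) a * (kk L (α - (a : ℝ) / ((c.r * s : ℕ) : ℝ)) *
            Tc c y (α - (a : ℝ) / ((c.r * s : ℕ) : ℝ))) else 0) = 0 := by
      refine sum_eq_zero fun c _ => sum_eq_zero fun s hs => sum_eq_zero fun a _ => ?_
      rw [mem_filter, mem_Icc] at hs
      rw [if_neg]
      rintro ⟨h1, _⟩
      exact Nat.mul_ne_zero c.hr (by omega) h1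
    rw [hz, sub_zero] at h
    exact h
  · intro c s a hc hs1 hs2 _ _ _
    have hr1 : 1 ≤ c.r := Nat.one_le_iff_ne_zero.2 c.hr
    have hr2 : c.r ≤ ⌊P⌋₊ := Nat.le_floor ((h0.1 P c).1 hc)
    exact (hfar (c.r * s) a (Nat.mul_pos hr1 hs1) (Nat.mul_le_mul hr2 hs2)).le

theorem hNrf (hW : StWex) (hC : StCvl) (hK : StKer) (hT : StTa1) (hP : StCps)
    (h0 : Pool.Agent.Helper23.MV.StFin) (hTav : Pool.Agent.Helper23.MV.StTav) : StNrf := by
  refine ⟨2, le_rfl, fun P X Q L y q₀ a₀ β hP2 hPX hlog hQ _ hL1 hL2 hy hq1 hqD ha0 hcop hβ => ?_⟩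
  have hq0 : (0 : ℝ) < q₀ := by exact_mod_cast hq1
  have h := NR.main hW hC hK hT hP h0 P X Q L y ((a₀ : ℝ) / q₀ + β) hP2 hPX hlog hQ hL1 hL2 hy
    q₀ (a₀ % q₀) ?_
  · have hz : ∑ c ∈ PS P, ∑ s ∈ (Icc 1 Q).filter (fun s => Nat.Coprime s c.r),
      ∑ a ∈ (range (c.r * s)).filter (fun a => Nat.Coprime a (c.r * s)),
        (if c.r * s = q₀ ∧ a = a₀ % q₀ then
          kap c (c.r * s) a * (kk L ((a₀ : ℝ) / q₀ + β - (a : ℝ) / ((c.r * s : ℕ) : ℝ)) *
            Tc c y ((a₀ : ℝ) / q₀ + β - (a : ℝ) / ((c.r * s : ℕ) : ℝ))) else 0) =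
        ∑ c ∈ (PS P).filter (fun c => c.r ∣ q₀ ∧ q₀ / c.r ≤ Q),
          kap c q₀ a₀ * (kk L β * Tc c y β) := by
      rw [sum_filter]
      refine sum_congr rfl fun c _ => ?_
      have hr1 : 1 ≤ c.r := Nat.one_le_iff_ne_zero.2 c.hr
      split_ifs with hd
      · obtain ⟨hd1, hd2⟩ := hd
        have hqr : c.r * (q₀ / c.r) = q₀ := Nat.mul_div_cancel' hd1
        by_cases hco : Nat.Coprime (q₀ / c.r) c.r
        · rw [sum_eq_single (q₀ / c.r)]
          · rw [hqr, sum_eq_single (a₀ % q₀)]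
            · rw [if_pos ⟨rfl, rfl⟩]
              have hmod : ((a₀ % q₀ : ℕ) : ℝ) = a₀ - q₀ * ((a₀ / q₀ : ℕ) : ℝ) := by
                have h1 : a₀ % q₀ + q₀ * (a₀ / q₀) = a₀ := Nat.mod_add_div a₀ q₀
                have h2 : ((a₀ % q₀ : ℕ) : ℝ) + q₀ * ((a₀ / q₀ : ℕ) : ℝ) = a₀ := by
                  exact_mod_cast h1
                linarith
              have hγ : (a₀ : ℝ) / q₀ + β - ((a₀ % q₀ : ℕ) : ℝ) / (q₀ : ℝ) =
                  β + (((a₀ / q₀ : ℕ) : ℤ) : ℝ) := by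
                rw [hmod, Int.cast_natCast, sub_div, mul_div_cancel_left₀ _ hq0.ne']
                ring
              rw [hγ, NR.kk_shift, NR.Tc_shift]
              have hev : c.ev (a₀ % q₀) = c.ev a₀ := by
                show c.χ _ = c.χ _
                congr 1
                rw [ZMod.natCast_eq_natCast_iff]
                exact (Nat.mod_modEq a₀ q₀).of_dvd hd1
              unfold kap
              rw [hev]
            · intro a _ ha
              rw [if_neg]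
              rintro ⟨_, h1⟩
              exact ha h1
            · intro hn
              exfalso
              apply hn
              rw [mem_filter, mem_range]
              refine ⟨Nat.mod_lt _ hq1, ?_⟩
              exact ((Nat.mod_modEq a₀ q₀).gcd_eq).trans hcop
          · intro s _ hs
            refine sum_eq_zero fun a _ => ?_
            rw [if_neg]
            rintro ⟨h1, _⟩
            apply hs
            rw [← h1, Nat.mul_div_cancel_left _ hr1]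
          · intro hn
            exfalso
            apply hn
            rw [mem_filter, mem_Icc]
            refine ⟨⟨?_, hd2⟩, hco⟩
            exact Nat.div_pos (Nat.le_of_dvd hq1 hd1) hr1
        · have hk0 : kap c q₀ a₀ = 0 := by
            unfold kap
            have h1 : ta c q₀ = 0 := by
              by_contra h2
              exact hco (hTav c q₀ (by omega) hd1 h2).2
            rw [h1]
            simp
          rw [hk0, zero_mul]
          refine sum_eq_zero fun s hs => sum_eq_zero fun a _ => ?_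
          rw [if_neg]
          rintro ⟨h1, _⟩
          rw [mem_filter] at hs
          apply hco
          rw [← h1, Nat.mul_div_cancel_left _ hr1]
          exact hs.2
      · refine sum_eq_zero fun s hs => sum_eq_zero fun a _ => ?_
        rw [if_neg]
        rintro ⟨h1, _⟩
        rw [mem_filter, mem_Icc] at hs
        apply hd
        refine ⟨Dvd.intro _ h1, ?_⟩
        rw [← h1, Nat.mul_div_cancel_left _ hr1]
        exact hs.1.2
    rw [hz] at h
    exact h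
  · intro c s a hc hs1 hs2 ha1 ha2 hn
    have hr1 : 1 ≤ c.r := Nat.one_le_iff_ne_zero.2 c.hr
    have hr2 : c.r ≤ ⌊P⌋₊ := Nat.le_floor ((h0.1 P c).1 hc)
    set m : ℕ := c.r * s with hm
    have hm1 : 1 ≤ m := Nat.mul_pos hr1 hs1
    have hmD : m ≤ ⌊P⌋₊ * Q := Nat.mul_le_mul hr2 hs2
    have hm0 : (0 : ℝ) < m := by exact_mod_cast hm1
    set D : ℝ := ((⌊P⌋₊ * Q : ℕ) : ℝ) with hD
    have hmD' : (m : ℝ) ≤ D := by rw [hD]; exact_mod_cast hmD
    have hqD' : (q₀ : ℝ) ≤ D := by rw [hD]; exact_mod_cast hqD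
    have hD0 : 0 < D := lt_of_lt_of_le hm0 hmD'
    have hnot : ¬ ((q₀ * m : ℕ) : ℤ) ∣ ((a₀ : ℤ) * m - a * q₀) := by
      rintro ⟨k, hk⟩
      apply hn
      have hk' : (a₀ : ℤ) * m - a * q₀ = q₀ * m * k := by rw [hk]; push_cast; ring
      have h1 : (m : ℤ) ∣ (a : ℤ) * q₀ := ⟨a₀ - q₀ * k, by linarith⟩
      have h2 : m ∣ a * q₀ := by exact_mod_cast h1
      have h3 : m ∣ q₀ := (Nat.Coprime.symm ha2).dvd_of_dvd_mul_left h2
      have h4 : (q₀ : ℤ) ∣ (a₀ : ℤ) * m := ⟨a + m * k, by linarith⟩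
      have h5 : q₀ ∣ a₀ * m := by exact_mod_cast h4
      have h6 : q₀ ∣ m := (Nat.Coprime.symm hcop).dvd_of_dvd_mul_left h5
      have h7 : m = q₀ := Nat.dvd_antisymm h3 h6
      refine ⟨h7, ?_⟩
      rw [h7] at hk' ha1
      have hq0' : (q₀ : ℤ) ≠ 0 := by exact_mod_cast (by omega : q₀ ≠ 0)
      have h8 : (a₀ : ℤ) - a = q₀ * k := by
        have h9 : (q₀ : ℤ) * ((a₀ : ℤ) - a) = q₀ * (q₀ * k) := by linarith
        exact mul_left_cancel₀ hq0' h9
      have h9 : a ≡ a₀ [MOD q₀] := by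
        rw [Nat.modEq_iff_dvd]
        exact ⟨k, h8⟩
      have h10 : a % q₀ = a₀ % q₀ := h9
      rw [← h10, Nat.mod_eq_of_lt ha1]
    have hnd := NR.nd_frac ((a₀ : ℤ) * m - a * q₀) (q₀ * m) (Nat.mul_pos hq1 hm1) hnot
    have hx : (((a₀ : ℤ) * m - a * q₀ : ℤ) : ℝ) / ((q₀ * m : ℕ) : ℝ) = (a₀ : ℝ) / q₀ - a / m := by
      push_cast
      field_simp
    rw [hx] at hnd
    have h2 := NR.nd_sub_abs ((a₀ : ℝ) / q₀ - a / m) β
    have h3 : (a₀ : ℝ) / q₀ - a / m + β = (a₀ : ℝ) / q₀ + β - a / m := by ring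
    rw [h3] at h2
    have h4 : 1 / D ^ 2 ≤ 1 / ((q₀ * m : ℕ) : ℝ) := by
      apply one_div_le_one_div_of_le
      · push_cast
        positivity
      · push_cast
        rw [sq]
        gcongr
    have h5 : 1 / D ^ 2 = 2 * (1 / (2 * D ^ 2)) := by field_simp
    linarith

end Pool.Agent.Helper58.PB
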