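import Pool.Agent.Helper58.PB.StZ
import Pool.Agent.Helper23.MV.StE

set_option autoImplicit false

namespace Pool.Agent.Helper58.PB

open Finset ArithmeticFunction
open Pool.Agent.Helper48.BK (ex th Sx Apx rr win AdN Admissible Solv Cl thd)
open Pool.Agent.Helper23.GK (cR)
open Pool.Agent.Helper23.MV (PCh PS ZF ZS mwt OKb ta Sc mm)

/-- the conjugate character -/
noncomputable def cjc (c : PCh) : PCh where
  r := c.r
  hr := c.hr
  χ := c.χ⁻¹
  prim := by
    haveI : NeZero c.r := ⟨c.hr⟩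
    have h := c.prim
    unfold DirichletCharacter.IsPrimitive at h ⊢
    rw [DirichletCharacter.conductor_inv]
    exact h

theorem cjc_r (c : PCh) : (cjc c).r = c.r := rfl

theorem cjc_ev (c : PCh) (n : ℕ) : (cjc c).ev n = (starRingEnd ℂ) (c.ev n) := by
  haveI : NeZero c.r := ⟨c.hr⟩
  show c.χ⁻¹ (n : ZMod c.r) = _
  have h := MulChar.star_apply' c.χ (n : ZMod c.r)
  rw [← h]
  rfl

theorem cjc_cjc (c : PCh) : cjc (cjc c) = c := by
  cases c with
  | mk r hr χ prim =>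
    unfold cjc
    simp

theorem cjc_Av (c : PCh) (L n : ℕ) : Av (cjc c) L n = (starRingEnd ℂ) (Av c L n) := by
  unfold Av
  rw [map_mul, map_sum]
  congr 1
  · simp
  · refine sum_congr rfl fun j _ => ?_
    rw [cjc_ev, map_mul, Complex.conj_ofReal]

theorem cjc_wt (Q : ℕ) (c : PCh) (n : ℕ) : wt Q (cjc c) n = (starRingEnd ℂ) (wt Q c n) := by
  unfold wt
  rw [cjc_ev, cjc_r, map_mul, map_mul, Complex.conj_ofReal]
  congr 2
  rw [map_div₀]
  simp

theorem sum_real (h0 : Pool.Agent.Helper23.MV.StFin) (P : ℝ) (f : PCh → ℂ)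
    (hf : ∀ c, f (cjc c) = (starRingEnd ℂ) (f c)) : (∑ c ∈ PS P, f c).im = 0 := by
  have h : ∑ c ∈ PS P, f c = (starRingEnd ℂ) (∑ c ∈ PS P, f c) := by
    rw [map_sum]
    refine sum_nbij' cjc cjc ?_ ?_ (fun c _ => cjc_cjc c) (fun c _ => cjc_cjc c) ?_
    · intro c hc
      rw [h0.1] at hc ⊢
      exact hc
    · intro c hc
      rw [h0.1] at hc ⊢
      exact hc
    · intro c _
      rw [hf, Complex.conj_conj]
  exact Complex.conj_eq_iff_im.1 h.symm

theorem hRlg (h0 : Pool.Agent.Helper23.MV.StFin) : StRlg := by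
  refine ⟨fun P L n u => sum_real h0 P _ fun c => ?_, fun P Q L n u => sum_real h0 P _ fun c => ?_⟩
  · rw [cjc_ev, cjc_Av, map_mul]
  · rw [cjc_wt, cjc_Av, map_mul]

end Pool.Agent.Helper58.PB
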