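import Pool.Agent.Helper23.MV.All
import Pool.Agent.Helper48.BK.Top
import Pool.Agent.Helper23.GK.All
import Pool.Agent.Helper23.PB.M_INT
import Pool.Agent.Helper23.PB.M_PSK
import Pool.Agent.Helper29.PB.M_TRU
import Pool.Agent.Helper3.PB.M_BXF
import Pool.Agent.Helper31.PB.M_CO2
import Pool.Agent.Helper31.PB.M_VGN
import Pool.Agent.Helper32.PB.M_ZFN
import Pool.Agent.Helper36.PB.M_DEN
import Pool.Agent.Helper39.PB.M_KER
import Pool.Agent.Helper4.PB.M_MTC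
import Pool.Agent.Helper4.PB.M_RM3
import Pool.Agent.Helper4.PB.M_SBX
import Pool.Agent.Helper43.PB.M_ONX
import Pool.Agent.Helper48.PB.M_POS
import Pool.Agent.Helper49.PB.M_DU2
import Pool.Agent.Helper49.PB.M_ER2
import Pool.Agent.Helper49.PB.M_MNT
import Pool.Agent.Helper51.PB.M_TA1
import Pool.Agent.Helper58.PB.M_NRF
import Pool.Agent.Helper58.PB.M_RLG
import Pool.Agent.Helper61.PB.M_SUP
import Pool.Agent.Helper63.PB.M_GAU
import Pool.Agent.Helper7.PB.M_RWB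
import Pool.Agent.Helper72.PB.M_CPS
import Pool.Agent.Helper79.PB.M_AVE
import Pool.Agent.Helper8.PB.M_AVV
import Pool.Agent.Helper8.PB.M_MID
import Pool.Agent.Helper80.PB.M_CRM
import Pool.Agent.Helper80.PB.M_WTB
import Pool.Agent.Helper82.PB.M_TWS
import Pool.Agent.Helper83.PB.M_BI2
import Pool.Agent.Helper83.PB.M_NAX
import Pool.Agent.Helper84.PB.M_BXP
import Pool.Agent.Helper84.PB.M_CVL
import Pool.Agent.Helper84.PB.M_INX
import Pool.Agent.Helper85.PB.M_FAR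
import Pool.Agent.Helper86.PB.M_TAI
import Pool.Agent.Helper89.PB.M_DVB
import Pool.Agent.Helper90.PB.M_WEX
import Pool.Agent.Helper93.PB.M_BXG
import Pool.Agent.Helper95.PB.M_LFT
import Pool.Agent.Helper96.PB.M_CRT
import Pool.Agent.Helper98.PB.M_UNT
import Pool.Agent.Helper58.PB.Fin

/-!
# Project PB: assembly
-/

set_option autoImplicit false

namespace Pool.Agent.Helper58.PB

theorem tPsk : StPsk :=
  Pool.Agent.Helper23.PB.hPsk Pool.Agent.Helper23.MV.AllMV.aFin Pool.Agent.Helper23.MV.AllMV.aCsh Pool.Agent.Helper23.MV.AllMV.aPid Pool.Agent.Helper23.MV.AllMV.aPkr Pool.Agent.Helper23.MV.AllMV.aNum Pool.Agent.Helper23.MV.AllMV.aGrd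
theorem tCps : StCps :=
  Pool.Agent.Helper72.PB.hCps Pool.Agent.Helper23.MV.AllMV.aFin
theorem tInt : StInt :=
  Pool.Agent.Helper23.PB.hInt tPsk Pool.Agent.Helper48.BK.hTh Pool.Agent.Helper23.MV.AllMV.aFin
theorem tAve : StAve :=
  Pool.Agent.Helper79.PB.hAve tInt
theorem tTws : StTws :=
  Pool.Agent.Helper82.PB.hTws tInt tCps
theorem tRlg : StRlg :=
  Pool.Agent.Helper58.PB.hRlg Pool.Agent.Helper23.MV.AllMV.aFin
theorem tZfn : StZfn :=
  Pool.Agent.Helper32.PB.hZfn Pool.Agent.Helper23.MV.AllMV.aZer Pool.Agent.Helper23.MV.AllMV.aFin tAve tTws tCps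
theorem tTa1 : StTa1 :=
  Pool.Agent.Helper51.PB.hTa1 Pool.Agent.Helper23.MV.AllMV.aTav Pool.Agent.Helper23.GK.AllGK.ram
theorem tGau : StGau :=
  Pool.Agent.Helper63.PB.hGau tTa1
theorem tWex : StWex :=
  Pool.Agent.Helper90.PB.hWex tTa1 Pool.Agent.Helper23.MV.AllMV.aTav Pool.Agent.Helper23.GK.AllGK.ram
theorem tCvl : StCvl :=
  Pool.Agent.Helper84.PB.hCvl
theorem tKer : StKer :=
  Pool.Agent.Helper39.PB.hKer Pool.Agent.Helper48.BK.hGeo1
theorem tNrf : StNrf :=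
  Pool.Agent.Helper58.PB.hNrf tWex tCvl tKer tTa1 tCps Pool.Agent.Helper23.MV.AllMV.aFin Pool.Agent.Helper23.MV.AllMV.aTav
theorem tNrn : StNrn :=
  Pool.Agent.Helper58.PB.hNrn tWex tCvl tKer tTa1 tCps Pool.Agent.Helper23.MV.AllMV.aFin
theorem tVgn : StVgn :=
  Pool.Agent.Helper31.PB.hVgn Pool.Agent.Helper48.BK.tVau Pool.Agent.Helper48.BK.hTh
theorem tFar : StFar :=
  Pool.Agent.Helper85.PB.hFar tVgn tGau
theorem tMid : StMid :=
  Pool.Agent.Helper8.PB.hMid tVgn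
theorem tMtc : StMtc :=
  Pool.Agent.Helper4.PB.hMtc Pool.Agent.Helper23.MV.AllMV.aExp tTa1 tCps
theorem tSup : StSup :=
  Pool.Agent.Helper61.PB.hSup tNrf tNrn tFar tMid tMtc tKer tTa1 tCps
theorem tLft : StLft :=
  Pool.Agent.Helper95.PB.hLft
theorem tCrt : StCrt :=
  Pool.Agent.Helper96.PB.hCrt
theorem tRm3 : StRm3 :=
  Pool.Agent.Helper4.PB.hRm3 Pool.Agent.Helper23.GK.AllGK.ram
theorem tCrm : StCrm :=
  Pool.Agent.Helper80.PB.hCrm
theorem tTai : StTai :=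
  Pool.Agent.Helper86.PB.hTai tCrm
theorem tUnt : StUnt :=
  Pool.Agent.Helper98.PB.hUnt Pool.Agent.Helper23.GK.AllGK.ram Pool.Agent.Helper23.MV.AllMV.aFin
theorem tTru : StTru :=
  Pool.Agent.Helper29.PB.hTru tLft tCrt tRm3 tCrm tTai tUnt
theorem tDen : StDen :=
  Pool.Agent.Helper36.PB.hDen Pool.Agent.Helper48.BK.hLoc tLft tCrt
theorem tPos : StPos :=
  Pool.Agent.Helper48.PB.hPos tDen
theorem tBxp : StBxp :=
  Pool.Agent.Helper84.PB.hBxp Pool.Agent.Helper48.BK.hLat tLft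
theorem tBxf : StBxf :=
  Pool.Agent.Helper3.PB.hBxf tBxp tLft tCrm tTru tPos
theorem tAvv : StAvv :=
  Pool.Agent.Helper8.PB.hAvv
theorem tBxg : StBxg :=
  Pool.Agent.Helper93.PB.hBxg tBxf tBxp tAvv tRlg tCps tCrm
theorem tSbx : StSbx :=
  Pool.Agent.Helper4.PB.hSbx
theorem tRwb : StRwb :=
  Pool.Agent.Helper7.PB.hRwb
theorem tMnt : StMnt :=
  Pool.Agent.Helper49.PB.hMnt tBxg tSbx tRwb
theorem tDvb : StDvb :=
  Pool.Agent.Helper89.PB.hDvb
theorem tWtb : StWtb :=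
  Pool.Agent.Helper80.PB.hWtb tDvb tCrm
theorem tCo2 : StCo2 :=
  Pool.Agent.Helper31.PB.hCo2
theorem tBi2 : StBi2 :=
  Pool.Agent.Helper83.PB.hBi2 Pool.Agent.Helper48.BK.hPar Pool.Agent.Helper48.BK.hDiv tCo2
theorem tDu2 : StDu2 :=
  Pool.Agent.Helper49.PB.hDu2 tCo2 Pool.Agent.Helper48.BK.hCnt Pool.Agent.Helper48.BK.hGcd
theorem tEr2 : StEr2 :=
  Pool.Agent.Helper49.PB.hEr2 tBi2 tDu2 tCo2
theorem tOnx : StOnx :=
  Pool.Agent.Helper43.PB.hOnx
theorem tNax : StNax :=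
  Pool.Agent.Helper83.PB.hNax
theorem tInx : StInx :=
  Pool.Agent.Helper84.PB.hInx

theorem tOnp : StOnp := tOnx tZfn tSup tMnt tEr2 tWtb tDvb
theorem tNap : StNap := tNax tOnp
theorem tInp : StInp := tInx tNap

end Pool.Agent.Helper58.PB
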