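import Pool.Agent.Helper48.BK.StT
import Pool.Agent.Helper48.BK.StD
import Pool.Agent.Helper23.MV.StC

/-!
# Project PB (MP_3923f3_nt): prime solutions of `ap + bq + cr = d`, a power saving in all boxes

Definitions. Reused: `th` (`log p` on primes), `ex t = exp(2πit)`, `Sx`, `rr`, `win`, `AdN`, `Admissible`, `Solv`,
`Cl`, `thd` (`Helper48/BK`), `cR` (Ramanujan sums, `Helper23/GK`), `PCh`, `PS`, `ZF`, `ZS`, `mwt`, `OKb`, `ta`, `Sc`, `mm`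
(`Helper23/MV`).
-/

set_option autoImplicit false

namespace Pool.Agent.Helper58.PB

open Finset ArithmeticFunction
open Pool.Agent.Helper48.BK (ex th Sx Apx rr win AdN Admissible Solv Cl thd)
open Pool.Agent.Helper23.GK (cR)
open Pool.Agent.Helper23.MV (PCh PS ZF ZS mwt OKb ta Sc mm)

/-! ### the model of the primes -/

/-- short averages of `th · c` over `(n - L, n]` (`th 0 = 0`) -/
noncomputable def Av (c : PCh) (L n : ℕ) : ℂ :=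
  (1 / (L : ℂ)) * ∑ j ∈ range L, ((th (n - j) : ℝ) : ℂ) * c.ev (n - j)

/-- `∑_{s ≤ Q, (s, r) = 1} μ(s) c_s(n) / φ(s)` -/
noncomputable def sw (Q r n : ℕ) : ℝ :=
  ∑ s ∈ (Icc 1 Q).filter (fun s => Nat.Coprime s r),
    (moebius s : ℝ) / (Nat.totient s : ℝ) * ((cR s n : ℤ) : ℝ)

/-- weights `(r/φ(r)) conj c(n) ∑_{s ≤ Q, (s, r) = 1} μ(s) c_s(n) / φ(s)` -/
noncomputable def wt (Q : ℕ) (c : PCh) (n : ℕ) : ℂ :=
  (c.r : ℂ) / (Nat.totient c.r : ℂ) * (starRingEnd ℂ) (c.ev n) * ((sw Q c.r n : ℝ) : ℂ)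

/-- the model (complex form) -/
noncomputable def Gc (P : ℝ) (Q L n : ℕ) : ℂ := ∑ c ∈ PS P, wt Q c n * Av c L n

/-- the model -/
noncomputable def Gr (P : ℝ) (Q L n : ℕ) : ℝ := (Gc P Q L n).re

/-- the coefficient `ta c q · c(a) / φ(q)` of the frequency `a/q` -/
noncomputable def kap (c : PCh) (q a : ℕ) : ℂ := ta c q * c.ev a / (Nat.totient q : ℂ)

/-- the kernel `(1/L) ∑_{j<L} e(jβ)` -/
noncomputable def kk (L : ℕ) (β : ℝ) : ℂ := (1 / (L : ℂ)) * ∑ j ∈ range L, ex (j * β)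

/-- twisted exponential sum over primes -/
noncomputable def Tc (c : PCh) (y : ℕ) (β : ℝ) : ℂ :=
  ∑ n ∈ Ioc 0 y, ((th n : ℝ) : ℂ) * c.ev n * ex (n * β)

/-! ### sums over solutions -/

/-- the second moment of the binary form `a n + σ b m`, `n ≤ X`, `m ≤ Y` -/
noncomputable def Q2 (f g : ℕ → ℝ) (X Y a b : ℕ) (σ : ℤ) : ℝ :=
  ∑ n ∈ Ioc 0 X, ∑ m ∈ Ioc 0 Y, ∑ n' ∈ Ioc 0 X, ∑ m' ∈ Ioc 0 Y,
    if (a : ℤ) * n + σ * (b * m) = a * n' + σ * (b * m') then f n * g m * (f n' * g m') else 0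

/-- the ternary sum over `u n + v m + w l = D`, `n ≤ X`, `m ≤ Y`, `l ≤ Z` -/
noncomputable def T3 (f g h : ℕ → ℝ) (X Y Z : ℕ) (u v w D : ℤ) : ℝ :=
  ∑ n ∈ Ioc 0 X, ∑ m ∈ Ioc 0 Y, ∑ l ∈ Ioc 0 Z,
    if u * n + v * m + w * l = D then f n * g m * h l else 0

/-- weighted number of solutions of `a n + b m = c l + d` with `a n, b m ∈ (8h, 9h]`, `c l ∈ (6h, 28h]` -/
noncomputable def RW (f g k : ℕ → ℝ) (X Y Z h a b c : ℕ) (d : ℤ) : ℝ :=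
  T3 (win f 8 9 h a) (win g 8 9 h b) (win k 6 28 h c) X Y Z a b (-c) d

/-- average over the classes modulo `M` solving `a u + b v = c w + d` -/
noncomputable def En (a b c : ℕ) (d : ℤ) (M : ℕ) (φ : ℕ → ℕ → ℕ → ℂ) : ℂ :=
  (1 / (M : ℂ) ^ 2) * ∑ u ∈ Cl a b c d M, φ u.1 u.2.1 u.2.2

/-- periodicity in three variables -/
def Per3 (M : ℕ) (φ : ℕ → ℕ → ℕ → ℂ) : Prop :=
  ∀ u v w u' v' w' : ℕ, u ≡ u' [MOD M] → v ≡ v' [MOD M] → w ≡ w' [MOD M] → φ u v w = φ u' v' w'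

/-- the product of the primes up to `Q` -/
noncomputable def Pi0 (Q : ℕ) : ℕ := ∏ p ∈ (range (Q + 1)).filter Nat.Prime, p

/-- untruncated weights `∏_{p ≤ Q} p/(p-1) · 1_{(n, Π) = 1} · conj c(n)` -/
noncomputable def wi (Q : ℕ) (c : PCh) (n : ℕ) : ℂ :=
  if Nat.Coprime n (Pi0 Q) then
    (((∏ p ∈ (range (Q + 1)).filter Nat.Prime, (p : ℝ) / (p - 1) : ℝ)) : ℂ) * (starRingEnd ℂ) (c.ev n)
  else 0

/-! ### bad triples -/

/-- `(a, b, c)` is bad at height `h` (form `a p + b q = c r + d`) -/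
def Bad1 (h a b c : ℕ) : Prop :=
  ∃ d : ℤ, |d| ≤ 10 * h ∧ AdN a b c d ∧ ¬ ∃ p q r : ℕ, p.Prime ∧ q.Prime ∧ r.Prime ∧
    (a : ℤ) * p + b * q = c * r + d ∧ a * p ≤ 9 * h ∧ b * q ≤ 9 * h ∧ c * r ≤ 28 * h

/-- `(a, b, c)` is bad at height `h` (form `a p + c r = b q + d`) -/
def Bad2 (h a b c : ℕ) : Prop :=
  ∃ d : ℤ, |d| ≤ 10 * h ∧ AdN a c b d ∧ ¬ ∃ p q r : ℕ, p.Prime ∧ q.Prime ∧ r.Prime ∧
    (a : ℤ) * p + c * r = b * q + d ∧ a * p ≤ 9 * h ∧ c * r ≤ 9 * h ∧ b * q ≤ 28 * h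

end Pool.Agent.Helper58.PB
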