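import Pool.Agent.Helper58.PB.StB

/-!
# Project PB: statements, part A (top level)
-/

set_option autoImplicit false

namespace Pool.Agent.Helper58.PB

open Finset ArithmeticFunction
open Pool.Agent.Helper48.BK (ex th Sx Apx rr win AdN Admissible Solv Cl thd)
open Pool.Agent.Helper23.GK (cR)
open Pool.Agent.Helper23.MV (PCh PS ZF ZS mwt OKb ta Sc mm)

open Classical in
/-- ONP (few bad triples at one height) -/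
def StOnp : Prop := ∀ ε : ℝ, 0 < ε → ε ≤ 1 → ∃ δ h₀ : ℝ, 0 < δ ∧ ∀ h N m lo lo' K : ℕ, h₀ ≤ h →
  1 ≤ lo → lo ≤ N → N ≤ lo * K → 1 ≤ lo' → lo' ≤ m → m ≤ lo' * K → N ≤ m →
  (N : ℝ) * (m : ℝ) ^ (1 + ε) ≤ h → (K : ℝ) ≤ (h : ℝ) ^ δ →
  ((((Icc lo N) ×ˢ (Icc lo N) ×ˢ (Icc lo' m)).filter
    (fun v : ℕ × ℕ × ℕ => Bad1 h v.1 v.2.1 v.2.2 ∨ Bad2 h v.1 v.2.1 v.2.2)).card : ℝ) ≤
    (N : ℝ) ^ 2 * m * (h : ℝ) ^ (-δ)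

/-- ONX: proof of ONP.

`ε` given; `K₀ = 6/ε`, `κ = ε/30000`; ZFN: `δ₀ ≤ κ`; `δ = ε δ₀/200000`. Let `h` be large.
(1) `h/(Nm) ≥ h^{ε/3}`: if `m ≤ h^{1/3}` then `h/(Nm) ≥ h/m² ≥ h^{1/3}`, otherwise `h/(Nm) ≥ m^ε`. `X = ⌈28h/lo⌉`, `Y = ⌈28h/lo'⌉`: `28h ≤ lo X ≤ 29h`
(`lo ≤ h`), similarly for `Y`; `h^{ε/3} ≤ h/m ≤ Y`, `X, Y ≤ 29hK ≤ h²`, `h^{ε/3} ≤ X`. (`Y ≤ X`? not needed: put `Z = min X Y` as a real number; in fact `lo ≤ lo'` may fail.)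
(2) ZFN at `Z = min(X,Y) ≥ h^{ε/3}`, `Z ≤ 29hK/m·.. ≤ h²`; `Z^{K₀} ≥ h² ≥ X, Y`: parameters `P, t`: `h^{εδ₀/6} ≤ P ≤ h^{2δ₀}`, `Dat K₀ Z P t`,
`P^{-1/100} ≤ t ≤ 1`. So `P^{2000} ≤ h^{4000δ₀} ≤ h^{ε/3}`, hence `N m P^{2000} ≤ h`, `P^{2000} ≤ X, Y`, `P ≤ X^{1/5000}`, `P ≤ Y^{1/5000}`; `log X, log Y ≤ P^{1/100}` (`h` large);
`K ≤ h^δ ≤ P^{1/10000}`.
(3) `Q = ⌊P^{50}⌋`, `L₁ = ⌊X/P^{200}⌋`, `L₃ = ⌊Y/P^{200}⌋`. SUP (with the third part of `Dat`) at `X` and `Y`: exponential sums of `th - g`, `g = Gr P Q L₁`, resp.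
`th - k`, `k = Gr P Q L₃`, are at most `P^{-1/3}X`, `P^{-1/3}Y`.
(4) `M = P^{1/1000}`, `T = ⌊P^{1/1000}⌋`: `th n ≤ log n ≤ M`; for `X ≤ 5Kn`, `n ≤ X`: `n ≥ X/P`, so `|g n| ≤ ∑ |wt||Av| ≤ 3 max|wt| ≤ 3C(P Q X)^e ≤ M` by WTB and `Dat`, with `e = εδ₀/10^5`
(`P Q X ≤ h^4`); DVB for `T` and for `τ(abc)² ≤ P` (`abc ≤ h³`).
(5) Suppose `(a,b,c)` is `Bad1` with `d = D a b c` (choice; `D = 0` otherwise). Then `T3 (win th 8 9 h a) (win th 8 9 h b) (win th 6 28 h c) X X Y a b (-c) d = 0`: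
a nonzero term would be a prime solution with `a n ≤ 9h`, `b m ≤ 9h`, `c l ≤ 28h`. MNT for the model: `RW g g k X X Y h a b c d ≥ t³h²/(2abc) ≥ P^{-3/100}h²/(2N²m)`
(`(a:ℝ) X ≤ N·29h/lo ≤ 29Kh ≤ Ph`, etc.). ER2 (`s = 1`, `t = -1`, windows `(8,9), (8,9), (6,28)`, `δ = P^{-1/3}`): the sum of the differences over all `(a,b,c)` is at most
`10^5 P^{3/1000 + 3/10^4 + 1/1000}(1 + log m)² h² √(P^{-2000} + P^{-1/3}) ≤ h² P^{-1/7}`. So there are at most `2N²m P^{3/100 - 1/7} ≤ N²m P^{-1/10}/2 ≤ N²m h^{-δ}/2` bad triples of type 1.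
(6) `Bad2`: `RW g k g X Y X h a c b d = T3 (win g 8 9 h a) (win k 8 9 h c) (win g 6 28 h b) X Y X a c (-b) d = T3 (win g 8 9 h a) (win g 6 28 h b) (win k 8 9 h c) X X Y a (-b) c d`
(exchange the two inner sums); MNT with the coefficients `a, c, b` (`AdN a c b d`; `a b P^{2000} ≤ h`, `c b P^{2000} ≤ h`), ER2 with `s = -1`, `t = 1`, windows `(8,9), (6,28), (8,9)`. -/
def StOnx : Prop := StZfn → StSup → StMnt → StEr2 → StWtb → StDvb → StOnp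

/-- the bound of the final theorem: `3|d| + max(3,a,b,c)^μ` and `(|d|/N + m) m^(μ-1)` -/
noncomputable def bd (μ : ℝ) (N m : ℕ) (M : ℝ) (d : ℤ) : ℝ :=
  min (3 * |(d : ℝ)| + M ^ μ) ((|(d : ℝ)| / N + m) * (m : ℝ) ^ (μ - 1))

/-- `(a, b, c)` is exceptional for the form `a p + b q = c r + d` -/
def Ex1 (μ : ℝ) (N m a b c : ℕ) : Prop :=
  ∃ d : ℤ, AdN a b c d ∧ ¬ ∃ p q r : ℕ, p.Prime ∧ q.Prime ∧ r.Prime ∧
    (a : ℤ) * p + b * q = c * r + d ∧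
    ((max p (max q r) : ℕ) : ℝ) ≤ bd μ N m ((max 3 (max a (max b c)) : ℕ) : ℝ) d

/-- `(a, b, c)` is exceptional for the form `a p + c r = b q + d` -/
def Ex2 (μ : ℝ) (N m a b c : ℕ) : Prop :=
  ∃ d : ℤ, AdN a c b d ∧ ¬ ∃ p q r : ℕ, p.Prime ∧ q.Prime ∧ r.Prime ∧
    (a : ℤ) * p + c * r = b * q + d ∧
    ((max p (max q r) : ℕ) : ℝ) ≤ bd μ N m ((max 3 (max a (max b c)) : ℕ) : ℝ) d

open Classical in
/-- NAP (natural coefficients) -/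
def StNap : Prop := ∀ μ : ℝ, 1 < μ → ∃ δ m₀ : ℝ, 0 < δ ∧ ∀ N m : ℕ, m₀ ≤ m → 1 ≤ N → N ≤ m →
  ((((Icc 1 N) ×ˢ (Icc 1 N) ×ˢ (Icc 1 m)).filter
    (fun v : ℕ × ℕ × ℕ => Ex1 μ N m v.1 v.2.1 v.2.2 ∨ Ex2 μ N m v.1 v.2.1 v.2.2)).card : ℝ) ≤
    (N : ℝ) ^ 2 * (m : ℝ) ^ (1 - δ)

/-- NAX: proof of NAP.

`ε = min(1, (μ-1)/2)`, `δ₁` and `h₁` from ONP for `ε`. `K = ⌈m^{δ₂}⌉`, `δ₂ = min(δ₁/2, (μ-1)/(10μ))`, `lo = ⌈N/K⌉`, `lo' = ⌈m/K⌉`. The triples with `a < lo` (i.e. `a < N/K`) or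
`b < lo` or `c < lo'` number at most `3N²m/K ≤ 3N²m^{1-δ₂}`. Let `(a,b,c)` be another exceptional triple, with witness `d`. `h₀ = ⌈N m^{1+ε}⌉`.
(i) `|d| ≤ 10h₀`: then the triple is bad at height `h₀`: otherwise there are primes with `a p, b q, c r ≤ 28h₀`; `p ≤ 28h₀/a ≤ 28h₀K/N ≤ 60K m^{1+ε}`, similarly `q`,
`r ≤ 28h₀K/m ≤ 60K m^{1+ε}` (`N ≤ m`), and `60K m^{1+ε} ≤ (m/K)^μ ≤ max(3,a,b,c)^μ`, `≤ m^μ` for large `m` (`c ≥ m/K`; exponents: `1 + ε + δ₂ < μ(1 - δ₂)`): both parts of `bd`.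
(ii) `|d| > 10h₀`: choose `k` with `16·2^k ≤ |d|/10 < 32·2^k` and `s = ⌈|d|/(10·2^k)⌉ ∈ [16, 32]`, `h = s2^k`: `|d| ≤ 10h` and `h ≤ |d|/10 + 2^k ≤ (17/16)|d|/10`. The triple is bad at height
`h`: otherwise primes with `a p, b q, c r ≤ 28h ≤ 28·17|d|/160 < 3|d|`, so `p, q, r < 3|d|` and `p, q ≤ 3|d|/lo ≤ 3K|d|/N`, `r ≤ 3K|d|/m ≤ 3K|d|/N`, and `3K ≤ m^{μ-1}`:
both parts of `bd`. Here `h ≥ h₀`.
So the triple is `Bad1 ∨ Bad2` at height `h₀` or at one of the heights `h = s2^k ≥ h₀`, `16 ≤ s ≤ 32`; the number is at most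
`N²m(h₀^{-δ₁} + ∑_{s,k : s2^k ≥ h₀} (s2^k)^{-δ₁}) ≤ C N²m h₀^{-δ₁} ≤ C N²m^{1-δ₁}` (geometric series; only finitely many heights are needed since the set of triples is
finite; `K ≤ 2m^{δ₂} ≤ h^{δ₁}` since `h ≥ m^{1+ε}`, choose `δ₂ ≤ δ₁/2` and `m` large). Take `δ < min(δ₂, δ₁)`. -/
def StNax : Prop := StOnp → StNap

open Classical in
/-- INP (final theorem): for every `μ > 1` there is `δ > 0` such that for all large `m` and all `1 ≤ N ≤ m` all but at most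
`N² m^{1-δ}` integer triples `(a, b, c)`, `|a|, |b| ≤ N`, `|c| ≤ m`, satisfy the bounds `3|d| + max(3,|a|,|b|,|c|)^μ` and
`(|d|/N + m) m^{μ-1}` for every admissible `d`. -/
def StInp : Prop := ∀ μ : ℝ, 1 < μ → ∃ δ : ℝ, 0 < δ ∧ ∃ m₀ : ℕ, ∀ N m : ℕ, m₀ ≤ m → 1 ≤ N → N ≤ m →
  ((((Icc (-(N : ℤ)) N) ×ˢ (Icc (-(N : ℤ)) N) ×ˢ (Icc (-(m : ℤ)) m)).filter
    (fun v : ℤ × ℤ × ℤ => ∃ d : ℤ, Admissible v.1 v.2.1 v.2.2 d ∧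
      ¬ Solv v.1 v.2.1 v.2.2 d
        (bd μ N m ((max 3 (max |v.1| (max |v.2.1| |v.2.2|)) : ℤ) : ℝ) d))).card : ℝ) ≤
    (N : ℝ) ^ 2 * (m : ℝ) ^ (1 - δ)

/-- INX: proof of INP. Compare `StInt`, `Helper48/BK/M_Int.lean`.

Let `(a,b,c)` be exceptional with `d`. Not all signs are equal. Multiply the equation by `-1` if necessary (`d → -d`): then two of `a,b,c` are positive and one
negative. `c < 0`: `|a|p + |b|q = |c|r + d`: `Ex1 μ N m |a| |b| |c|` (`AdN` from `Admissible`: parity, gcds of absolute values). `b < 0`: `|a|p + |c|r = |b|q + d`: `Ex2 μ N m |a| |b| |c|`.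
`a < 0`: `|b|q + |c|r = |a|p + d`: `Ex2 μ N m |b| |a| |c|` (rename the primes; the maxima agree). So `(|a|,|b|,|c|)` or `(|b|,|a|,|c|)` belongs to the set of NAP; each natural triple comes from at most
`8` integer triples in each way: at most `16 N² m^{1-δ'}`, and `16 ≤ m^{δ'/2}`. -/
def StInx : Prop := StNap → StInp

end Pool.Agent.Helper58.PB
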