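import Pool.Agent.Helper58.PB.StM

/-!
# Project PB: statements, part B (bilinear comparison in unequal boxes) and divisor bounds
-/

set_option autoImplicit false

namespace Pool.Agent.Helper58.PB

open Finset ArithmeticFunction
open Pool.Agent.Helper48.BK (ex th Sx Apx rr win AdN Admissible Solv Cl thd)
open Pool.Agent.Helper23.GK (cR)
open Pool.Agent.Helper23.MV (PCh PS ZF ZS mwt OKb ta Sc mm)

/-- DVB (divisor bound). Proof. `τ(n)/n^ε = ∏ (k+1)p^{-εk}`; for `p ≥ 2^{1/ε}` each factor is `≤ (k+1)2^{-k} ≤ 1`, for the finitely many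
smaller `p` it is at most `1 + 1/(ε log 2)`. (Search the library first: such a bound exists in several projects.) -/
def StDvb : Prop := ∀ ε : ℝ, 0 < ε → ∃ C : ℝ, 1 ≤ C ∧ ∀ n : ℕ, 1 ≤ n →
  (n.divisors.card : ℝ) ≤ C * (n : ℝ) ^ ε

/-- WTB (size of the weights).

Proof. Only squarefree `s` matter. CRM: `|c_s(n)| = φ((s,n))`. `∑_{s≤Q} μ²(s)φ((s,n))/φ(s) ≤ ∑_{g∣n} ∑_{s'≤Q} 1/φ(s')·` (`s = g s'`, `(g,s') = 1`,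
`φ(s) = φ(g)φ(s')`) `≤ τ(n) ∑_{s≤Q} 1/φ(s)`, and `1/φ(s) ≤ C s^{ε/4 - 1}` (TA1: or `s/φ(s) ≤ ∑_{d∣s} 1 = τ(s)`: indeed
`s/φ(s) = ∏ (1 + 1/(p-1)) ≤ 2^{ω(s)} ≤ τ(s)`), so `∑_{s≤Q} 1/φ(s) ≤ ∑ τ(s)/s ≤ C Q^{ε/2}`. `r/φ(r) ≤ τ(r)`. DVB. -/
def StWtb : Prop := ∀ ε : ℝ, 0 < ε → ∃ C : ℝ, 1 ≤ C ∧ ∀ (Q n : ℕ) (c : PCh), 1 ≤ Q → 1 ≤ n →
  ‖wt Q c n‖ ≤ C * ((c.r : ℝ) * Q * n) ^ ε

/-- CO2 (second moment of a binary form, different ranges). Proof: `StCor` of BK (`Helper48/BK/M_Cor.lean`) word for word, with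
`n, n' ≤ X` and `m, m' ≤ Y`: `a(n - n') = σ b(m' - m)`, so `n - n' = ± b'k`, `m' - m = ± a'k`. (Nonzero only if `b'k < X`, `a'k < Y`.) -/
def StCo2 : Prop := ∀ (f g : ℕ → ℝ) (X Y a b : ℕ) (σ : ℤ), 1 ≤ a → 1 ≤ b → (σ = 1 ∨ σ = -1) →
  0 ≤ Q2 f g X Y a b σ ∧
  Q2 f g X Y a b σ ≤ rr f X 0 * rr g Y 0 +
    2 * ∑ k ∈ Icc 1 (min X Y), |rr f X (b / Nat.gcd a b * k)| * |rr g Y (a / Nat.gcd a b * k)|

/-- BI2 (average of the second moments; `F` has small exponential sums). `A, B ≥ 1`.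

Proof. CO2. `rr f X 0 ≤ M²X`: first term `AB M⁴XY`. Off the diagonal: `|rr (G b) Y h| ≤ M²Y`, so the sum is at most
`2M²Y ∑_{(a,b,k)} |rr (F a) X (b'k)|` over the triples with `b'k < X`, `b' = b/(a,b)`. For fixed `a` there are at most
`∑_{g∣a} ∑_{b'≤B} X/b' ≤ τ(a) X (1 + log B)` pairs `(b,k)` (`b = g b'`), and
`∑_{(b,k)} rr (F a) X (b'k)² ≤ τ(a) ∑_{h<X} τ(h) rr (F a) X h² ≤ τ(a) T (δX)² M²X` (`StPar` of BK with `D = δX`). `∑_{a≤A} τ(a) ≤ A(1 + log A)`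
(`StDiv`). Cauchy-Schwarz over all triples: `∑ |rr| ≤ √(A(1+log A)(1+log B)X) √(A(1+log A) T δ²M²X³) ≤
A (1+log A)(1+log B) √T δ M X²`. -/
def StBi2 : Prop := ∀ (F G : ℕ → ℕ → ℝ) (X Y A B T : ℕ) (M δ : ℝ) (σ : ℤ), 1 ≤ X → 1 ≤ Y → 1 ≤ A →
  1 ≤ B → 1 ≤ M → 0 ≤ δ → (σ = 1 ∨ σ = -1) → (∀ a n, |F a n| ≤ M) → (∀ a n, |G a n| ≤ M) →
  (∀ n : ℕ, 1 ≤ n → n ≤ X → n.divisors.card ≤ T) →
  (∀ a ∈ Icc 1 A, ∀ α, ‖Sx (F a) X α‖ ≤ δ * X) →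
  ∑ a ∈ Icc 1 A, ∑ b ∈ Icc 1 B, Q2 (F a) (G b) X Y a b σ ≤
    M ^ 4 * ((A : ℝ) * B * X * Y +
      2 * A * (X : ℝ) ^ 2 * Y * δ * √(T : ℝ) * ((1 + Real.log A) * (1 + Real.log B)))

/-- DU2 (duality, different ranges). Proof: `StDual` of BK (`Helper48/BK/M_Dual.lean`) word for word with ranges `X, Y, Z`:
for each `(a,b)` write `∑_c ± T3 = ∑_k r_{ab}(k) (∑_c ± ∑_{l : k + t c l = D} H_c(l))`, Cauchy-Schwarz in `k`;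
`∑_k r_{ab}(k)² = Q2 (F a) (G b) X Y a b s`, `∑_k |∑_c ..|² ≤ M² ∑_{c,c'} #{(l,l') : c l - c' l' = ..} ≤ M² ∑_{c,c'} (Z (c,c')/c' + 1)`
(`StCnt`, `StGcd`), then Cauchy-Schwarz over `(a,b)`. -/
def StDu2 : Prop := ∀ (F G H : ℕ → ℕ → ℝ) (X Y Z A B lo N : ℕ) (M : ℝ) (s t : ℤ)
  (D : ℕ → ℕ → ℕ → ℤ), 1 ≤ lo → lo ≤ N → 0 ≤ M → (s = 1 ∨ s = -1) → (t = 1 ∨ t = -1) →
  (∀ c n, |H c n| ≤ M) →
  ∑ a ∈ Icc 1 A, ∑ b ∈ Icc 1 B, ∑ c ∈ Icc lo N,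
    |T3 (F a) (G b) (H c) X Y Z a (s * b) (t * c) (D a b c)| ≤
    √((A : ℝ) * B * ∑ a ∈ Icc 1 A, ∑ b ∈ Icc 1 B, Q2 (F a) (G b) X Y a b s) *
      (M * √((N : ℝ) ^ 2 * (1 + Real.log N) * Z / lo + (N : ℝ) ^ 2))

/-- ER2 (comparison of the primes and the model on average over the coefficients).

Both small coefficients `a, b ∈ [lo, N]` have the range `X`, the large one `c ∈ [lo', m]` the range `Y`;
`28h ≤ lo X ≤ 29h`, `28h ≤ lo' Y ≤ 29h`. General signs `s, t` and windows `(p_i h, q_i h]` with `6 ≤ p_i`, `q_i ≤ 28`.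

Proof. Compare `StErr` of BK and its proof `Helper48/BK/M_Err.lean` (permutation lemmas, cut functions `win` put equal to `0` for coefficients
below `lo`). `L = 1 + log m`. For a coefficient `a ∈ [lo, N]` the window of `n` is contained in `[X/(5K), X]`
(`n > 6h/N ≥ 6X/(29K)`, `a n ≤ 28h ≤ lo X`), there all functions are bounded by `M`; the exponential sum of `win (f - g)` is a difference of two `Sx`,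
so at most `2δX`. Telescope `fff - ggk = (f-g)ff + g(f-g)f + gg(f-k)`. The first term: pair `(a, c)` (`A = N`, `B = m`, ranges `X, Y`, `F = win (f-g)`),
dual variable `b`: DU2 and BI2:
`≤ √(Nm·(2M)⁴(NmXY + 4NX²Yδ√T L²)) · 2M √(N²LX/lo + N²)`. `NX ≤ 29Kh`, `mY ≤ 29Kh`, `N²X/lo ≤ 29K²h`, `N² ≤ Nm ≤ h`. So it is at most
`8M³ √(Nm(29Kh)² + 4δ√T L²(29Kh)³) √(30K²hL) ≤ 8·29·√30·11·M³K³L²√T h² √(Nm/h + δ)`. The second term: pair `(b, c)`, dual `a`. The third term: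
pair `(c, a)` with `F = win (f-k)` at the coefficient `c` (`A = m`, `B = N`, ranges `Y, X`), dual `b`. (All three are the same computation;
`Q2 f g X Y a b σ = Q2 g f Y X b a σ`, signs may be multiplied by `-1`.) -/
def StEr2 : Prop := ∀ (f g k : ℕ → ℝ) (X Y h lo N lo' m K T p₁ q₁ p₂ q₂ p₃ q₃ : ℕ) (s t : ℤ)
  (M δ : ℝ) (D : ℕ → ℕ → ℕ → ℤ), 1 ≤ h → 1 ≤ lo → lo ≤ N → N ≤ lo * K → 1 ≤ lo' → lo' ≤ m →
  m ≤ lo' * K → N ≤ m → N * m ≤ h → 28 * h ≤ lo * X → lo * X ≤ 29 * h → 28 * h ≤ lo' * Y →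
  lo' * Y ≤ 29 * h → 6 ≤ p₁ → 6 ≤ p₂ → 6 ≤ p₃ → q₁ ≤ 28 → q₂ ≤ 28 → q₃ ≤ 28 →
  (s = 1 ∨ s = -1) → (t = 1 ∨ t = -1) → 1 ≤ M → 0 ≤ δ →
  (∀ n : ℕ, 1 ≤ n → n ≤ X → n.divisors.card ≤ T) → (∀ n : ℕ, 1 ≤ n → n ≤ Y → n.divisors.card ≤ T) →
  (∀ n ≤ X, X ≤ 5 * K * n → |f n| ≤ M) → (∀ n ≤ X, X ≤ 5 * K * n → |g n| ≤ M) →
  (∀ n ≤ Y, Y ≤ 5 * K * n → |f n| ≤ M) → (∀ n ≤ Y, Y ≤ 5 * K * n → |k n| ≤ M) →
  (∀ y ≤ X, ∀ α, ‖Sx (fun n => f n - g n) y α‖ ≤ δ * X) →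
  (∀ y ≤ Y, ∀ α, ‖Sx (fun n => f n - k n) y α‖ ≤ δ * Y) →
  ∑ a ∈ Icc lo N, ∑ b ∈ Icc lo N, ∑ c ∈ Icc lo' m,
    |T3 (win f p₁ q₁ h a) (win f p₂ q₂ h b) (win f p₃ q₃ h c) X X Y a (s * b) (t * c) (D a b c) -
      T3 (win g p₁ q₁ h a) (win g p₂ q₂ h b) (win k p₃ q₃ h c) X X Y a (s * b) (t * c) (D a b c)| ≤
    100000 * M ^ 3 * (K : ℝ) ^ 3 * T * (1 + Real.log m) ^ 2 * (h : ℝ) ^ 2 *
      √((N : ℝ) * m / h + δ)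

end Pool.Agent.Helper58.PB
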