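import Pool.Agent.Helper58.PB.StS

/-!
# Project PB: statements, part M (main term)

`AdN a b c d` (`Helper48/BK/Defs`): the equation `a p + b q = c r + d`, `gcd(a,b,c) = gcd(d,a,b) = gcd(d,a,c) = gcd(d,b,c) = 1`,
`a + b + c + d` even. `Cl a b c d M`: triples `u` modulo `M` with `M ∣ a u₁ + b u₂ - c u₃ - d`; `En a b c d M φ`: their average
(there are `M²` of them).
-/

set_option autoImplicit false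

namespace Pool.Agent.Helper58.PB

open Finset ArithmeticFunction
open Pool.Agent.Helper48.BK (ex th Sx Apx rr win AdN Admissible Solv Cl thd)
open Pool.Agent.Helper23.GK (cR)
open Pool.Agent.Helper23.MV (PCh PS ZF ZS mwt OKb ta Sc mm)

/-! ### averages over solutions modulo `M` -/

/-- LFT (number of classes; lifting).

Proof. `gcd(a,b,c) = 1`. The map `(ℤ/MM')³ → ℤ/MM'`, `u ↦ a u₁ + b u₂ - c u₃` is a surjective homomorphism, so every fibre has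
`(MM')²` elements; for a class `v` of `Cl .. M` the lifts `u = v + M w`, `w ∈ (ℤ/M')³`, solve the congruence modulo `MM'` iff
`k + a w₁ + b w₂ - c w₃ ≡ 0 (mod M')` with `k = (a v₁ + b v₂ - c v₃ - d)/M`: `M'²` solutions `w`. -/
def StLft : Prop := ∀ (a b c M M' : ℕ) (d : ℤ), 1 ≤ M → 1 ≤ M' → Nat.gcd a (Nat.gcd b c) = 1 →
  ((Cl a b c d M).card : ℕ) = M ^ 2 ∧
  ∀ φ : ℕ → ℕ → ℕ → ℂ, Per3 M φ → En a b c d (M * M') φ = En a b c d M φ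

/-- CRT. Proof. Chinese remainder theorem in each coordinate: `u mod MM' ↦ (u mod M, u mod M')` is a bijection of
`Cl .. (MM')` onto `Cl .. M × Cl .. M'` (`Nat.chineseRemainder`, or `u ↦ (u % M, u % M')`). -/
def StCrt : Prop := ∀ (a b c M M' : ℕ) (d : ℤ), 1 ≤ M → 1 ≤ M' → Nat.Coprime M M' →
  ∀ φ ψ : ℕ → ℕ → ℕ → ℂ, Per3 M φ → Per3 M' ψ →
    En a b c d (M * M') (fun u v w => φ u v w * ψ u v w) = En a b c d M φ * En a b c d M' ψ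

/-- RM3 (three Ramanujan sums).

Proof. `c_t(u) = ∑*_{h mod t} e(hu/t)` (`AllGK.ram`). `∑_{u ∈ Cl T} e(θ₁u₁+θ₂u₂+θ₃u₃) = (1/T)∑_{λ mod T} e(-λd/T) ∑_{u ∈ (ℤ/T)³}
e((λa/T + θ₁)u₁ + (λb/T + θ₂)u₂ + (-λc/T + θ₃)u₃)`, and for `θ_i ∈ (1/T)ℤ` the inner sum is `T³` if all three coefficients are integers,
else `0`. So the average (weight `1/T²`) of `c_{t₁}c_{t₂}c_{t₃}` is `∑_{λ mod T} e(-λd/T) N(λ)`, `N(λ) = 1` if `λa/T, λb/T, λc/T` modulo `1`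
have exact denominators `t₁, t₂, t₃`, else `0`. The exact denominator of `λ/T` is then the least common multiple of `t₁,t₂,t₃` (as
`gcd(a,b,c) = 1`), i.e. `T`, so `(λ,T) = 1`, and then the denominator of `λa/T` is `T/(T,a)`. So the result is
`∑*_λ e(-λd/T) = c_T(d)` if `t₁ = T/(T,a)`, `t₂ = T/(T,b)`, `t₃ = T/(T,c)`, and `0` otherwise. -/
def StRm3 : Prop := ∀ (a b c T t₁ t₂ t₃ : ℕ) (d : ℤ), 1 ≤ t₁ → 1 ≤ t₂ → 1 ≤ t₃ →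
  T = Nat.lcm t₁ (Nat.lcm t₂ t₃) → Nat.gcd a (Nat.gcd b c) = 1 →
  En a b c d T (fun u v w => ((cR t₁ u : ℤ) : ℂ) * ((cR t₂ v : ℤ) : ℂ) * ((cR t₃ w : ℤ) : ℂ)) =
    if t₁ = T / Nat.gcd T a ∧ t₂ = T / Nat.gcd T b ∧ t₃ = T / Nat.gcd T c then ((cR T d : ℤ) : ℂ)
    else 0

/-- CRM (Ramanujan sums: multiplicative, periodic, size). Proof. `cR (s*t) n = cR s n * cR t n` for coprime `s, t` (divisors of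
`st`); `cR s n` depends on `n mod s`; for squarefree `s`: `c_p(n) = p - 1` if `p ∣ n`, `-1` otherwise, so
`|c_s(n)| = φ((s,n))`. -/
def StCrm : Prop := (∀ (s t : ℕ) (n : ℤ), Nat.Coprime s t → cR (s * t) n = cR s n * cR t n) ∧
  (∀ (s : ℕ) (m n : ℤ), 1 ≤ s → (s : ℤ) ∣ m - n → cR s m = cR s n) ∧
  ∀ (s : ℕ) (n : ℤ), 1 ≤ s → Squarefree s → |cR s n| = Nat.totient (Nat.gcd s n.natAbs)

/-- the size of the local term at `T`: `|c_T(d)| / (φ(T/(T,a)) φ(T/(T,b)) φ(T/(T,c)))` -/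
noncomputable def lct (a b c : ℕ) (d : ℤ) (T : ℕ) : ℝ :=
  |((cR T d : ℤ) : ℝ)| / ((Nat.totient (T / Nat.gcd T a) : ℝ) * (Nat.totient (T / Nat.gcd T b) : ℝ) *
    (Nat.totient (T / Nat.gcd T c) : ℝ))

/-- TAI (tail of the singular series).

Proof. On squarefree `T` the function `lct` is multiplicative. At a prime `p`: if `p ∤ abc` then `|c_p(d)| ≤ p-1` and all three
totients are `p-1`: `lct ≤ 1/(p-1)²`. If `p` divides exactly one coefficient: `lct ≤ (p-1)/(p-1)² = 1/(p-1)`. If `p` divides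
exactly two coefficients then `p ∤ d` (`AdN`), so `|c_p(d)| = 1`, one totient `p-1` is left: `lct = 1/(p-1)`; `p` never divides all
three. So `∑_{T∣Π, T>y} lct(T) ≤ y^{-1/2} ∑_{T∣Π} lct(T) T^{1/2} ≤ y^{-1/2} ∏_p (1 + √p lct(p)) ≤
y^{-1/2} ∏_{p∤abc} (1 + √p/(p-1)²) ∏_{p∣abc} (1 + √p/(p-1))`; the first product is bounded (`∑ √p/(p-1)² < ∞`), each factor
of the second is at most `4 = 2²` (`p = 2`: `1 + √2 < 4`), so it is at most `4^{ω(abc)} ≤ τ(abc)²`. -/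
def StTai : Prop := ∃ C : ℝ, 1 ≤ C ∧ ∀ (a b c Q : ℕ) (d : ℤ) (y : ℝ), 1 ≤ a → 1 ≤ b → 1 ≤ c →
  AdN a b c d → 0 < y →
  ∑ T ∈ (Pi0 Q).divisors.filter (fun T : ℕ => y < T), lct a b c d T ≤
    C * y ^ (-(1 / 2) : ℝ) * ((a * b * c).divisors.card : ℝ) ^ 2

/-- UNT (the untruncated weights). `P ≤ Q`, `c ∈ PS P`.

Proof. `∑_{s ∣ N} μ(s)c_s(n)/φ(s) = N/φ(N)` if `(n,N) = 1`, else `0` (`AllGK.ram`, part (d)); `N = ∏_{p ≤ Q, p ∤ r} p`, its divisors are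
the divisors of `Pi0 Q` prime to `r`. `r/φ(r) = ∏_{p∣r} p/(p-1)`, all `p ∣ r` are `≤ Q`; if `(n, r) > 1` then `c(n) = 0`. -/
def StUnt : Prop := ∀ (P : ℝ) (Q n : ℕ) (c : PCh), P ≤ Q → c ∈ PS P →
  wi Q c n = (c.r : ℂ) / (Nat.totient c.r : ℂ) * (starRingEnd ℂ) (c.ev n) *
    ((∑ s ∈ (Pi0 Q).divisors.filter (fun s => Nat.Coprime s c.r),
      (moebius s : ℝ) / (Nat.totient s : ℝ) * ((cR s n : ℤ) : ℝ) : ℝ) : ℂ)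

/-- TRU (truncated and untruncated weights), `c₁, c₂, c₃ ∈ PS P`, `P ≤ Q`, modulus `Q!`.

Proof. By UNT and the definition of `wt` (only squarefree `s ≤ Q`, i.e. divisors of `Pi0 Q`, matter), the difference of the two
averages is `-∏ r_i/φ(r_i)` times the sum over the triples `(s₁,s₂,s₃)` of divisors of `Pi0 Q`, `(s_i,r_i) = 1`, not all `≤ Q`, of
`∏ μ(s_i)/φ(s_i) · En (Q!) (∏ conj c_i(u_i) c_{s_i}(u_i))`. Put `R = [r₁,r₂,r₃] ≤ P³`, `s_i = g_i t_i` with `g_i = (s_i, R)` (squarefree, so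
`(t_i,R) = 1`), `T = [t₁,t₂,t₃]`; `RT ∣ Q!` (`R ∣ Q!`, `T ∣ Pi0 Q ∣ Q!`, coprime). By LFT, CRM and CRT the average is
`En R (∏ conj c_i c_{g_i}) · En T (∏ c_{t_i})`, the first factor is at most `∏ φ(g_i)` in norm, the second by RM3 is `c_T(d)` if
`t_i = T/(T,a_i)` and `0` otherwise. So the sum is at most `∑_{g₁,g₂,g₃ ∣ R} ∑_{T ∣ Pi0 Q, (T,R)=1, g_i T/(T,a_i) > Q for some i} lct(T)`, and
the condition implies `T > Q/P³` (`g_i ≤ R ≤ P³`). At most `R³ ≤ P^9` triples `g`, `∏ r_i/φ(r_i) ≤ P³`; TAI with `y = Q/P³`: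
`P^{12} C P^{3/2}Q^{-1/2}τ²`. -/
def StTru : Prop := ∃ C : ℝ, 1 ≤ C ∧ ∀ (P : ℝ) (a b c Q : ℕ) (d : ℤ) (c₁ c₂ c₃ : PCh), 1 ≤ P → P ≤ Q →
  1 ≤ a → 1 ≤ b → 1 ≤ c → AdN a b c d → c₁ ∈ PS P → c₂ ∈ PS P → c₃ ∈ PS P →
  ‖En a b c d (Nat.factorial Q) (fun u v w => wt Q c₁ u * wt Q c₂ v * wt Q c₃ w) -
    En a b c d (Nat.factorial Q) (fun u v w => wi Q c₁ u * wi Q c₂ v * wi Q c₃ w)‖ ≤
    C * P ^ 14 * (Q : ℝ) ^ (-(1 / 2) : ℝ) * ((a * b * c).divisors.card : ℝ) ^ 2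

/-- DEN (local densities). Proof. By LFT (the indicator is periodic modulo `Pi0 Q ∣ Q!`) and CRT the average is the product over the
primes `p ≤ Q` of `En p (1_{p ∤ uvw})` (for `Q ≤ 1` everything is `1`). For `p ≥ 3` it is `≥ (p-1)(p-2)/p²` (`StLoc` of BK, proved in `Helper48/BK`:
`tLoc` or `hLoc`), for `p = 2` it is `1/4` (`a + b + c + d` even, so `(1,1,1)` is a solution; `#Cl = 4`). Multiplied by `(p/(p-1))³`: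
`2` for `p = 2`, `≥ p(p-2)/(p-1)²` for `p ≥ 3`, and `∏_{3≤n≤Q} n(n-2)/(n-1)² = Q/(2(Q-1)) ≥ 1/2` over all integers, each factor `≤ 1`. -/
def StDen : Prop := ∀ (a b c Q : ℕ) (d : ℤ), 1 ≤ a → 1 ≤ b → 1 ≤ c → AdN a b c d →
  1 ≤ ((∏ p ∈ (range (Q + 1)).filter Nat.Prime, (p : ℝ) / (p - 1) : ℝ)) ^ 3 *
    (En a b c d (Nat.factorial Q) (fun u v w =>
      if Nat.Coprime u (Pi0 Q) ∧ Nat.Coprime v (Pi0 Q) ∧ Nat.Coprime w (Pi0 Q) then 1 else 0)).re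

/-- POS (positivity). `A₁, A₂, A₃ : PCh → ℂ`.

Proof. Interchange: the sum is `En (Q!) (V³ 1_{units} F₁(u)F₂(v)F₃(w))`, `F_i(u) = ∑_c conj(c.ev u)·A_i c`, `V = ∏ p/(p-1)`. For `u` prime to
`Pi0 Q` (so to all primes `≤ P ≤ Q`) `F_i(u)` is real and `≥ t`. So the real part is `≥ t³ V³ En(1_{units}) ≥ t³` by DEN. -/
def StPos : Prop := ∀ (P t : ℝ) (a b c Q : ℕ) (d : ℤ) (A₁ A₂ A₃ : PCh → ℂ), P ≤ Q → 0 ≤ t →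
  1 ≤ a → 1 ≤ b → 1 ≤ c → AdN a b c d →
  (∀ u : ℕ, (∀ p : ℕ, p.Prime → (p : ℝ) ≤ P → ¬ p ∣ u) →
    (t ≤ (∑ e ∈ PS P, (starRingEnd ℂ) (e.ev u) * A₁ e).re ∧
      (∑ e ∈ PS P, (starRingEnd ℂ) (e.ev u) * A₁ e).im = 0) ∧
    (t ≤ (∑ e ∈ PS P, (starRingEnd ℂ) (e.ev u) * A₂ e).re ∧
      (∑ e ∈ PS P, (starRingEnd ℂ) (e.ev u) * A₂ e).im = 0) ∧
    (t ≤ (∑ e ∈ PS P, (starRingEnd ℂ) (e.ev u) * A₃ e).re ∧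
      (∑ e ∈ PS P, (starRingEnd ℂ) (e.ev u) * A₃ e).im = 0)) →
  t ^ 3 ≤ (∑ c₁ ∈ PS P, ∑ c₂ ∈ PS P, ∑ c₃ ∈ PS P, A₁ c₁ * A₂ c₂ * A₃ c₃ *
    En a b c d (Nat.factorial Q) (fun u v w => wi Q c₁ u * wi Q c₂ v * wi Q c₃ w)).re

/-! ### boxes -/

/-- the pairs of the box `(i, i+I] × (j, j+J]` for which `c ∣ a n + b m - d` -/
def Bx (a b c : ℕ) (d : ℤ) (i I j J : ℕ) : Finset (ℕ × ℕ) :=
  ((Ioc i (i + I)) ×ˢ (Ioc j (j + J))).filter (fun v => (c : ℤ) ∣ a * v.1 + b * v.2 - d)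

/-- BXP (periodic functions on a box).

Proof. For a class `u ∈ Cl a b c d M` the pairs `v` of the box with `v ≡ u (mod M)` in the first two coordinates and
`thd ≡ u₃ (mod M)`: write `v₁ = u₁ + M x`, `v₂ = u₂ + M y` (`x`, `y` in intervals of `I/M + O(1)`, `J/M + O(1)` integers); `c ∣ a v₁ + b v₂ - d` and
`(a v₁ + b v₂ - d)/c ≡ u₃ (mod M)` together mean `cM ∣ a v₁ + b v₂ - d - c u₃ = M(k + a x + b y)`, `k = (a u₁ + b u₂ - c u₃ - d)/M`,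
i.e. `c ∣ a x + b y + k`. `StLat` of BK: their number is `IJ/(cM²)` with an error `≤ 6(I + J + 1)` (compare `StRes`). Every pair of `Bx`
belongs to exactly one class. Sum over the `M²` classes (LFT). -/
def StBxp : Prop := ∀ (a b c M i I j J : ℕ) (d : ℤ) (φ : ℕ → ℕ → ℕ → ℂ) (B : ℝ), 1 ≤ a → 1 ≤ b →
  1 ≤ c → 1 ≤ M → Nat.gcd a (Nat.gcd b c) = 1 → 0 ≤ B → (∀ u v w, ‖φ u v w‖ ≤ B) → Per3 M φ →
  (∀ n m : ℕ, i < n → n ≤ i + I → j < m → m ≤ j + J → d < a * n + b * m) →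
  ‖∑ v ∈ Bx a b c d i I j J, φ v.1 v.2 (thd a b c d v).toNat -
    ((I : ℂ) * J / c) * En a b c d M φ‖ ≤ 6 * B * (M : ℝ) ^ 2 * (I + J + 1)

/-- BXF (frozen coefficients on a box). `c₁, c₂, c₃` run over `PS P`, `∑ |A_i c| ≤ 3`.

Proof. Expand `wt` into the sums over `s_i ≤ Q`, `(s_i, r_i) = 1`; for fixed `c_i`, `s_i` the function
`∏ conj c_i(u_i) c_{s_i}(u_i)` is periodic modulo `M = r₁s₁r₂s₂r₃s₃ ≤ P³Q³` (CRM) and bounded by `∏ φ(s_i)`; BXP, then LFT twice (both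
`M` and `Q!` divide.. : `En M φ = En (M·Q!) φ = En (Q!) φ`, the function is also periodic modulo `Q!`, because `r_i ∣ Q!`, `s_i ∣ Q!`).
The coefficient `∏ |A_i c_i| (r_i/φ(r_i))/φ(s_i)` cancels `∏ φ(s_i)`; the total error is at most
`(∑|A₁|)(∑|A₂|)(∑|A₃|)·P³·Q³·6·P^6Q^6(I+J+1) ≤ 200 P^9 Q^9 (I+J+1)`. So the left side is `(IJ/c)·Σ_{c_i} A₁A₂A₃ En (Q!) (wt wt wt)` up to
this error, TRU replaces `wt` by `wi` (error `27 C P^{14}Q^{-1/2}τ²` inside), POS. -/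
def StBxf : Prop := ∃ C : ℝ, 1 ≤ C ∧ ∀ (P t : ℝ) (a b c Q i I j J : ℕ) (d : ℤ) (A₁ A₂ A₃ : PCh → ℂ),
  1 ≤ P → P ≤ Q → 0 ≤ t → 1 ≤ a → 1 ≤ b → 1 ≤ c → AdN a b c d →
  ∑ e ∈ PS P, ‖A₁ e‖ ≤ 3 → ∑ e ∈ PS P, ‖A₂ e‖ ≤ 3 → ∑ e ∈ PS P, ‖A₃ e‖ ≤ 3 →
  (∀ n m : ℕ, i < n → n ≤ i + I → j < m → m ≤ j + J → d < a * n + b * m) →
  (∀ u : ℕ, (∀ p : ℕ, p.Prime → (p : ℝ) ≤ P → ¬ p ∣ u) →
    (t ≤ (∑ e ∈ PS P, (starRingEnd ℂ) (e.ev u) * A₁ e).re ∧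
      (∑ e ∈ PS P, (starRingEnd ℂ) (e.ev u) * A₁ e).im = 0) ∧
    (t ≤ (∑ e ∈ PS P, (starRingEnd ℂ) (e.ev u) * A₂ e).re ∧
      (∑ e ∈ PS P, (starRingEnd ℂ) (e.ev u) * A₂ e).im = 0) ∧
    (t ≤ (∑ e ∈ PS P, (starRingEnd ℂ) (e.ev u) * A₃ e).re ∧
      (∑ e ∈ PS P, (starRingEnd ℂ) (e.ev u) * A₃ e).im = 0)) →
  (I : ℝ) * J / c * (t ^ 3 - C * P ^ 14 * (Q : ℝ) ^ (-(1 / 2) : ℝ) * ((a * b * c).divisors.card : ℝ) ^ 2) -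
      200 * P ^ 9 * (Q : ℝ) ^ 9 * (I + J + 1) ≤
    (∑ v ∈ Bx a b c d i I j J, (∑ e ∈ PS P, wt Q e v.1 * A₁ e) * (∑ e ∈ PS P, wt Q e v.2 * A₂ e) *
      (∑ e ∈ PS P, wt Q e (thd a b c d v).toNat * A₃ e)).re

/-- AVV (variation of the averages). Proof. The windows `(n-L,n]`, `(n',n'+..]` differ in at most `2|n-n'|` places:
`L·Av c L n = ∑_{k ∈ (n-L, n]} th(k)c(k)`, the symmetric difference has at most `2|n-n'|` elements, each term is at most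
`log (max n n')`. -/
def StAvv : Prop := ∀ (c : PCh) (L n n' : ℕ), 1 ≤ L → n ≤ n' →
  ‖Av c L n - Av c L n'‖ ≤ 2 * ((n' : ℝ) - n) * Real.log n' / L

/-- BXG (the model on a box inside the windows).

Setting: scales `X, Y, Z` with `28 h ≤ a X ≤ P h`, `28 h ≤ b Y ≤ P h`, `28 h ≤ c Z ≤ P h`; the box lies in the windows
`8h < a n ≤ 9h`, `8h < b m ≤ 9h`, its sides are at most `X/P^{500}`, `Y/P^{500}`. If `I = 0` or `J = 0` the claim is trivial.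

Proof. Base point `n₀ = i + 1`, `m₀ = j + 1`, `l₀ = (a n₀ + b m₀ - d)/c` (integer part, a natural number, `6h/c - 1 ≤ l₀ ≤ 28h/c`, since
`|d| ≤ 10h`). For `v ∈ Bx`: `|v₁ - n₀| ≤ X/P^{500}`, `|v₂ - m₀| ≤ Y/P^{500}`, `|thd v - l₀| ≤ (aX/P^{500} + bY/P^{500})/c + 1 ≤ 2h P^{-499}/c + 1 ≤
Z P^{-490}` (`h/c ≤ Z/28`, `Z ≥ P^{2000}`). `A₁ c = Av c L₁ n₀`, `A₂ c = Av c L₂ m₀`, `A₃ c = Av c L₃ l₀`; the points `n₀, m₀, l₀, v₁, v₂, thd v` lie in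
`[X/P, X]` etc. (`n₀ > 8h/a ≥ 8X/P`; `l₀ ≥ 6h/c - 1 ≥ Z/P`), so `Dat`-type hypotheses give `∑|A_i| ≤ 3` and positivity (imaginary parts: RLG).
AVV: `∑_{c∈PS P} |Av c L₁ v₁ - A₁ c| ≤ P²·2(X/P^{500}) log X·2P^{200}/X ≤ P^{-290}`, similarly for the others (`≤ P^{-280}`). `|wt Q c n| ≤ P·Q ≤ P^{51}`
(`r/φ(r) ≤ r`, `|c_s(n)| ≤ φ(s)`), so `|Gc - ∑ wt A_i| ≤ P^{-220}`, `|Gc|, |∑ wt A_i| ≤ 3P^{51}`, and `Gr = Gc` (RLG). So replacing the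
product of the three `Gr` by the frozen product costs at most `P^{-100}` per element of `Bx`, `#Bx ≤ IJ/c + 6(I + J + 1)` (BXP with `φ = 1`, `M = 1`).
BXF with `Q ≥ P^{49}`, `τ(abc)² ≤ P`: `C P^{14}Q^{-1/2}τ² ≤ C P^{15 - 24.5} ≤ P^{-9}/2`; `200 P^9Q^9 ≤ P^{460}/2`. -/
def StBxg : Prop := ∃ P0 : ℝ, 2 ≤ P0 ∧ ∀ (P t : ℝ) (a b c Q h X Y Z L₁ L₂ L₃ i I j J : ℕ) (d : ℤ),
  P0 ≤ P → 0 ≤ t → 1 ≤ a → 1 ≤ b → 1 ≤ c → AdN a b c d → |d| ≤ 10 * h → (Q : ℝ) ≤ P ^ 50 → P ^ 49 ≤ Q →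
  ((a * b * c).divisors.card : ℝ) ^ 2 ≤ P → 28 * h ≤ a * X → (a : ℝ) * X ≤ P * h → 28 * h ≤ b * Y →
  (b : ℝ) * Y ≤ P * h → 28 * h ≤ c * Z → (c : ℝ) * Z ≤ P * h → P ^ 2000 ≤ X → P ^ 2000 ≤ Y → P ^ 2000 ≤ Z →
  Real.log X ≤ P → Real.log Y ≤ P → Real.log Z ≤ P →
  (X : ℝ) / (2 * P ^ 200) ≤ L₁ → (Y : ℝ) / (2 * P ^ 200) ≤ L₂ → (Z : ℝ) / (2 * P ^ 200) ≤ L₃ →
  (∀ n : ℕ, (X : ℝ) / P ≤ n → n ≤ 2 * X → ∑ e ∈ PS P, ‖Av e L₁ n‖ ≤ 3 ∧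
    ∀ u : ℕ, (∀ p : ℕ, p.Prime → (p : ℝ) ≤ P → ¬ p ∣ u) →
      t ≤ (∑ e ∈ PS P, (starRingEnd ℂ) (e.ev u) * Av e L₁ n).re) →
  (∀ n : ℕ, (Y : ℝ) / P ≤ n → n ≤ 2 * Y → ∑ e ∈ PS P, ‖Av e L₂ n‖ ≤ 3 ∧
    ∀ u : ℕ, (∀ p : ℕ, p.Prime → (p : ℝ) ≤ P → ¬ p ∣ u) →
      t ≤ (∑ e ∈ PS P, (starRingEnd ℂ) (e.ev u) * Av e L₂ n).re) →
  (∀ n : ℕ, (Z : ℝ) / P ≤ n → n ≤ 2 * Z → ∑ e ∈ PS P, ‖Av e L₃ n‖ ≤ 3 ∧
    ∀ u : ℕ, (∀ p : ℕ, p.Prime → (p : ℝ) ≤ P → ¬ p ∣ u) →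
      t ≤ (∑ e ∈ PS P, (starRingEnd ℂ) (e.ev u) * Av e L₃ n).re) →
  8 * h < a * (i + 1) → a * (i + I) ≤ 9 * h → 8 * h < b * (j + 1) → b * (j + J) ≤ 9 * h →
  (I : ℝ) ≤ X / P ^ 500 → (J : ℝ) ≤ Y / P ^ 500 →
  (I : ℝ) * J / c * (t ^ 3 - P ^ (-9 : ℝ)) - P ^ 460 * (I + J + 1) ≤
    ∑ v ∈ Bx a b c d i I j J, Gr P Q L₁ v.1 * Gr P Q L₂ v.2 * Gr P Q L₃ (thd a b c d v).toNat

/-- SBX (sum over boxes). Proof. Cut `(i, i+I]` into `⌊I/B₁⌋ + 1` consecutive intervals of length `≤ B₁`, `(j, j+J]` similarly, use the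
hypothesis for each box and add (`∑ I'J' = IJ`; the number of boxes is at most `(I/B₁ + 1)(J/B₂ + 1)`). -/
def StSbx : Prop := ∀ (a b c i I j J B₁ B₂ : ℕ) (d : ℤ) (f : ℕ × ℕ → ℝ) (α β : ℝ), 1 ≤ B₁ → 1 ≤ B₂ →
  0 ≤ β →
  (∀ i' I' j' J' : ℕ, i ≤ i' → i' + I' ≤ i + I → j ≤ j' → j' + J' ≤ j + J → I' ≤ B₁ → J' ≤ B₂ →
    (I' : ℝ) * J' * α - β ≤ ∑ v ∈ Bx a b c d i' I' j' J', f v) →
  (I : ℝ) * J * α - β * ((I : ℝ) / B₁ + 1) * ((J : ℝ) / B₂ + 1) ≤ ∑ v ∈ Bx a b c d i I j J, f v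

/-- RWB (`RW` as a sum over a box). Proof. Compare `StRR` of BK: in `T3` only `8h < a n ≤ 9h`, `8h < b m ≤ 9h` matter, i.e.
`n ∈ (⌊8h/a⌋, ⌊9h/a⌋]` etc.; given `n, m` the third variable is `l = (a n + b m - d)/c`, which exists iff `c` divides, and then
`6h < c l ≤ 28 h` automatically (`|d| ≤ 10 h`, `16h < an + bm ≤ 18h`) and `0 < l ≤ Z`. -/
def StRwb : Prop := ∀ (f g k : ℕ → ℝ) (X Y Z h a b c : ℕ) (d : ℤ), 1 ≤ a → 1 ≤ b → 1 ≤ c → 1 ≤ h →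
  |d| ≤ 10 * h → 28 * h ≤ a * X → 28 * h ≤ b * Y → 28 * h ≤ c * Z →
  RW f g k X Y Z h a b c d =
    ∑ v ∈ Bx a b c d (8 * h / a) (9 * h / a - 8 * h / a) (8 * h / b) (9 * h / b - 8 * h / b),
      f v.1 * g v.2 * k (thd a b c d v).toNat

/-- MNT (final statement of part M).

Additional hypotheses: `a c P^{2000} ≤ h`, `b c P^{2000} ≤ h` (`c` the coefficient of the third variable), `t³ ≥ P^{-1}`.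

Proof. RWB; `i = ⌊8h/a⌋`, `I = ⌊9h/a⌋ - ⌊8h/a⌋ ∈ [h/a - 1, h/a + 1]`, so `8h < a(i+1)`, `a(i+I) ≤ 9h`, and the same holds for all
boxes inside; similarly `j, J`. SBX with `B₁ = ⌊X/P^{500}⌋ ≥ X/(2P^{500})`, `B₂ = ⌊Y/P^{500}⌋`, and BXG: `α = (t³ - P^{-9})/c`,
`β = P^{460}(B₁+B₂+1)`, `(I/B₁+1)(J/B₂+1) ≤ (3P^{500})²` (`I ≤ h/a + 1 ≤ X`, `J ≤ Y`). Total
`≥ (h/a - 1)(h/b - 1)(t³ - P^{-9})/c - 9P^{1460}(X/P^{500} + Y/P^{500} + 1) ≥ (3/4)t³h²/(abc) - P^{962}(h/a + h/b) - P^{1461}` (`X ≤ Ph/a`,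
`Y ≤ Ph/b`, `h/a ≥ X/P ≥ P^{1999}`), and `P^{962}h/a ≤ h²P^{-2}/(abc)` because `bcP^{2000} ≤ h`, similarly for the others. -/
def StMnt : Prop := ∃ P0 : ℝ, 2 ≤ P0 ∧ ∀ (P t : ℝ) (a b c Q h X Y Z L₁ L₂ L₃ : ℕ) (d : ℤ),
  P0 ≤ P → P ^ (-1 : ℝ) ≤ t ^ 3 → 0 ≤ t → t ≤ 1 → 1 ≤ a → 1 ≤ b → 1 ≤ c → AdN a b c d → |d| ≤ 10 * h →
  (Q : ℝ) ≤ P ^ 50 → P ^ 49 ≤ Q →
  ((a * b * c).divisors.card : ℝ) ^ 2 ≤ P → 28 * h ≤ a * X → (a : ℝ) * X ≤ P * h → 28 * h ≤ b * Y →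
  (b : ℝ) * Y ≤ P * h → 28 * h ≤ c * Z → (c : ℝ) * Z ≤ P * h → P ^ 2000 ≤ X → P ^ 2000 ≤ Y → P ^ 2000 ≤ Z →
  (a : ℝ) * c * P ^ 2000 ≤ h → (b : ℝ) * c * P ^ 2000 ≤ h →
  Real.log X ≤ P → Real.log Y ≤ P → Real.log Z ≤ P →
  (X : ℝ) / (2 * P ^ 200) ≤ L₁ → (Y : ℝ) / (2 * P ^ 200) ≤ L₂ → (Z : ℝ) / (2 * P ^ 200) ≤ L₃ →
  (∀ n : ℕ, (X : ℝ) / P ≤ n → n ≤ 2 * X → ∑ e ∈ PS P, ‖Av e L₁ n‖ ≤ 3 ∧
    ∀ u : ℕ, (∀ p : ℕ, p.Prime → (p : ℝ) ≤ P → ¬ p ∣ u) →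
      t ≤ (∑ e ∈ PS P, (starRingEnd ℂ) (e.ev u) * Av e L₁ n).re) →
  (∀ n : ℕ, (Y : ℝ) / P ≤ n → n ≤ 2 * Y → ∑ e ∈ PS P, ‖Av e L₂ n‖ ≤ 3 ∧
    ∀ u : ℕ, (∀ p : ℕ, p.Prime → (p : ℝ) ≤ P → ¬ p ∣ u) →
      t ≤ (∑ e ∈ PS P, (starRingEnd ℂ) (e.ev u) * Av e L₂ n).re) →
  (∀ n : ℕ, (Z : ℝ) / P ≤ n → n ≤ 2 * Z → ∑ e ∈ PS P, ‖Av e L₃ n‖ ≤ 3 ∧
    ∀ u : ℕ, (∀ p : ℕ, p.Prime → (p : ℝ) ≤ P → ¬ p ∣ u) →
      t ≤ (∑ e ∈ PS P, (starRingEnd ℂ) (e.ev u) * Av e L₃ n).re) →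
  t ^ 3 * (h : ℝ) ^ 2 / (2 * (a * b * c)) ≤
    RW (Gr P Q L₁) (Gr P Q L₂) (Gr P Q L₃) X Y Z h a b c d

end Pool.Agent.Helper58.PB
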