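import Pool.Agent.Helper58.PB.StZ

/-!
# Project PB: statements, part S (exponential sums of `th - Gr`)

Throughout `D = ⌊P⌋ Q` bounds the denominators of the frequencies of the model. Parameters: `P^{49} ≤ Q ≤ P^{50}`,
`X/(2P^{200}) ≤ L ≤ X/P^{200}`, `P ≤ X^{1/5000}`, `log X ≤ P^{1/100}`.
-/

set_option autoImplicit false

namespace Pool.Agent.Helper58.PB

open Finset ArithmeticFunction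
open Pool.Agent.Helper48.BK (ex th Sx Apx rr win AdN Admissible Solv Cl thd nd)
open Pool.Agent.Helper23.GK (cR)
open Pool.Agent.Helper23.MV (PCh PS ZF ZS mwt OKb ta Sc mm)

/-! ### Gauss sums -/

/-- TA1 (Gauss sums). First part: `ta c q` for `q = r s`. If `s` is squarefree and prime to `r` then by CRT (`b = b₁ s + b₂ r`,
`e(b/(rs)) = e(b₁/r)e(b₂/s)`, `c(b) = c(b₁)c(s)`) `ta c (rs) = conj c(s) · μ(s) · ta c r` (`∑*_{b₂ mod s} e(b₂/s) = μ(s)`); otherwise `0`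
(`aTav`). See the proof of `aTrf`. Second part: `|ta c r|² = r`: `ta c r` is the Gauss sum of the primitive character `c.χ⁻¹`; by
`gaussSum_mulShift_of_isPrimitive` `∑_b χ'(b)e(ab/r) = conj χ'(a) τ` for all `a`, and Parseval:
`∑_{a mod r} |∑_b χ'(b)e(ab/r)|² = r ∑_b |χ'(b)|² = r φ(r)`, the left side is `φ(r)|τ|²`. Third part: consequence, `φ(q) ≥ c q^{9/10}`
(for example `φ(q) ≥ c q / log log q`, or `q^{9/10}/φ(q) = ∏ p^{-k/10} p/(p-1)` is bounded: only finitely many primes have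
`p^{-1/10}p/(p-1) > 1`). -/
def StTa1 : Prop := (∀ (c : PCh) (s : ℕ), 1 ≤ s → Squarefree s → Nat.Coprime s c.r →
    ta c (c.r * s) = (starRingEnd ℂ) (c.ev s) * ((moebius s : ℤ) : ℂ) * ta c c.r) ∧
  (∀ c : PCh, ‖ta c c.r‖ ^ 2 = c.r) ∧
  ∃ C : ℝ, 1 ≤ C ∧ ∀ (c : PCh) (q a : ℕ), 1 ≤ q → c.r ∣ q →
    ‖kap c q a‖ ≤ 1 ∧ ‖kap c q a‖ ≤ C * √(c.r : ℝ) * (q : ℝ) ^ (-(9 / 10) : ℝ)

/-- GAU (twists by Gauss sums). Proof. With the Gauss sum of the primitive character `c.χ` (TA1):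
`c(n) τ' = ∑_{b mod r} conj c(b) e(bn/r)` for ALL `n` (`gaussSum_mulShift_of_isPrimitive`), `|τ'| = √r`. Multiply by `f(n)e(nβ)` and
sum: `√r |∑ f c e| ≤ r max_b |∑ f(n) e(n(b/r + β))|`. -/
def StGau : Prop := ∀ (c : PCh) (f : ℕ → ℂ) (y : ℕ) (β B : ℝ),
  (∀ b < c.r, ‖∑ n ∈ Ioc 0 y, f n * ex (n * ((b : ℝ) / c.r + β))‖ ≤ B) →
  ‖∑ n ∈ Ioc 0 y, f n * c.ev n * ex (n * β)‖ ≤ √(c.r : ℝ) * B

/-- WEX (the weights as trigonometric polynomials).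

Proof. For `s` not squarefree both sides vanish (`moebius s = 0`; `ta c (rs) = 0` by `aTav`). For squarefree `s` prime to `r`: CRT
`a = a₁ s + a₂ r`: `∑*_{a mod rs} c(a) e(-an/(rs)) = c(s) (∑_{a₁ mod r} c(a₁) e(-a₁n/r)) c_s(n)`, the sum over `a₁` is
`conj c(n) c(-1) τ(c)`, `τ(c) = ∑ c(a)e(a/r)`. TA1: `ta c (rs) = conj c(s) μ(s) ta c r`, `ta c r = ∑ conj c(b) e(b/r) =
conj(c(-1) τ(c))`. The product is `μ(s) c_s(n) conj c(n) |τ(c)|²/(φ(r)φ(s))`, `|τ|² = r`. (`cR s n` real and equal to `∑* e(-an/s)`,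
`AllGK.ram`.) -/
def StWex : Prop := ∀ (c : PCh) (Q n : ℕ), wt Q c n =
  ∑ s ∈ (Icc 1 Q).filter (fun s => Nat.Coprime s c.r),
    ∑ a ∈ (range (c.r * s)).filter (fun a => Nat.Coprime a (c.r * s)),
      kap c (c.r * s) a * ex (-((a : ℝ) * n / ((c.r * s : ℕ) : ℝ)))

/-! ### the model -/

/-- CVL (convolution). Proof. `∑_{n≤y} Av(n)e(nβ) = (1/L)∑_{j<L} ∑_{j<n≤y} th(n-j)c(n-j)e(nβ) = (1/L)∑_j e(jβ)∑_{n'≤y-j} ..`; the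
missing terms `y - j < n' ≤ y` are at most `L log y` in total. -/
def StCvl : Prop := ∀ (c : PCh) (L y : ℕ) (β : ℝ), 1 ≤ L → 1 ≤ y →
  ‖∑ n ∈ Ioc 0 y, Av c L n * ex (n * β) - kk L β * Tc c y β‖ ≤ L * Real.log y

/-- KER (kernel). Proof. Trivial; geometric sum (`StGeo1` of BK: `|∑_{j<L} e(jβ)| ≤ gs L β ≤ 1/nd β`); `|e(jβ) - 1| ≤ 2πj|β|`. -/
def StKer : Prop := ∀ (L : ℕ) (β : ℝ), 1 ≤ L →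
  ‖kk L β‖ ≤ 1 ∧ (0 < nd β → ‖kk L β‖ ≤ 1 / (L * nd β)) ∧ ‖kk L β - 1‖ ≤ 2 * Real.pi * L * |β|

/-- CPS (number of characters). Proof. `#{c ∈ PS P : c.r = r} ≤ φ(r) ≤ r` (number of Dirichlet characters modulo `r`), sum over
`1 ≤ r ≤ P`. Second part: the `c` with `c.r ∣ q` correspond to characters modulo `q` (or: `∑_{r ∣ q} #{..} ≤ ∑_{r∣q} φ(r) = q`).
Third part: primes. -/
def StCps : Prop := (∀ P : ℝ, 1 ≤ P → ((PS P).card : ℝ) ≤ P ^ 2) ∧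
  (∀ (P : ℝ) (q : ℕ), 1 ≤ q → (((PS P).filter (fun c => c.r ∣ q)).card : ℝ) ≤ q) ∧
  ∀ y : ℕ, ∑ n ∈ Ioc 0 y, th n ≤ 4 * y

/-- NRF (the model near a frequency).

`D = ⌊P⌋ Q`; `a₀ ≤ q₀ ≤ D`, `(a₀, q₀) = 1`, `|β| ≤ 1/(2D²)`.

Proof. WEX and CVL: `∑_{n≤y} Gc(n)e(nα) = ∑_c ∑_s ∑_a kap c (rs) a · kk L (α - a/(rs)) · Tc c y (α - a/(rs)) + O(N L log y)`, where
`N` = number of triples `(c, s, a)` `≤ P²·Q·PQ = P³Q²` (`|kap| ≤ 1`, CPS); `N L log y ≤ P^{103} X P^{-200} log X ≤ X P^{-90}`. For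
`α = a₀/q₀ + β` and `a/(rs)` not congruent to `a₀/q₀` modulo `1`: `nd(a₀/q₀ - a/(rs)) ≥ 1/D²`, so `nd(α - a/(rs)) ≥ 1/(2D²)` and by KER
`|kk| ≤ 2D²/L`; these terms are at most `N (2D²/L)·4X ≤ P^{103}·2P^{102}·2P^{200}·4 ≤ X^{1/5}` (`P ≤ X^{1/5000}`, `|Tc| ≤ 4y`). The remaining triples
have `rs = q₀` and `a = a₀` (or `q₀ = 1`, `a = 0`), both reduced: these are the terms with `c.r ∣ q₀`, `q₀/c.r ≤ Q`, `(q₀/c.r, c.r) = 1`; the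
last condition may be dropped since otherwise `ta c q₀ = 0` (`aTav`). (`ex` and `Tc` have period `1` in `β`.) -/
def StNrf : Prop := ∃ P0 : ℝ, 2 ≤ P0 ∧ ∀ (P : ℝ) (X Q L y q₀ a₀ : ℕ) (β : ℝ), P0 ≤ P →
  P ≤ (X : ℝ) ^ (1 / 5000 : ℝ) → Real.log X ≤ P ^ (1 / 100 : ℝ) → (Q : ℝ) ≤ P ^ 50 → P ^ 49 ≤ Q →
  (X : ℝ) / (2 * P ^ 200) ≤ L → (L : ℝ) ≤ X / P ^ 200 → y ≤ X → 1 ≤ q₀ → q₀ ≤ ⌊P⌋₊ * Q → a₀ ≤ q₀ →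
  Nat.Coprime a₀ q₀ → |β| ≤ 1 / (2 * ((⌊P⌋₊ * Q : ℕ) : ℝ) ^ 2) →
  ‖∑ n ∈ Ioc 0 y, Gc P Q L n * ex (n * ((a₀ : ℝ) / q₀ + β)) -
    ∑ c ∈ (PS P).filter (fun c => c.r ∣ q₀ ∧ q₀ / c.r ≤ Q), kap c q₀ a₀ * (kk L β * Tc c y β)‖ ≤
    X * P ^ (-80 : ℝ)

/-- NRN (the model far from the frequencies). Proof. As NRF: if `nd(α - a/q) ≥ 1/(2D²)` for all fractions with `q ≤ D` then all
terms are of the second kind. -/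
def StNrn : Prop := ∃ P0 : ℝ, 2 ≤ P0 ∧ ∀ (P : ℝ) (X Q L y : ℕ) (α : ℝ), P0 ≤ P →
  P ≤ (X : ℝ) ^ (1 / 5000 : ℝ) → Real.log X ≤ P ^ (1 / 100 : ℝ) → (Q : ℝ) ≤ P ^ 50 → P ^ 49 ≤ Q →
  (X : ℝ) / (2 * P ^ 200) ≤ L → (L : ℝ) ≤ X / P ^ 200 → y ≤ X →
  (∀ (q a : ℕ), 1 ≤ q → q ≤ ⌊P⌋₊ * Q → 1 / (2 * ((⌊P⌋₊ * Q : ℕ) : ℝ) ^ 2) < nd (α - (a : ℝ) / q)) →
  ‖∑ n ∈ Ioc 0 y, Gc P Q L n * ex (n * α)‖ ≤ X * P ^ (-80 : ℝ)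

/-! ### the primes -/

/-- VGN (Vaughan's bound away from small denominators).

Proof. Dirichlet's theorem (`Real.exists_int_int_abs_mul_sub_le` or Mathlib's `exists_rat_abs_sub_le..`) with
`N = ⌊X/T'⌋`: a reduced `a'/q'`, `1 ≤ q' ≤ X/T'`, `|α - a'/q'| ≤ 1/(q'(N+1)) ≤ T'/(q'X)`. By hypothesis `q' > T`. `StVau` of BK (see `Top.lean`)
with `x = X`, `U = ⌊X^{1/3}⌋`: `|Sx Λ y α| ≤ C X (q'^{-1/2} + X^{-1/6}·2 + T'^{-1/2} + X^{-1/3}) log⁶X ≤ 5C X T^{-1/2} log⁶ X`, and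
`∑_{n≤y}(Λ - th) ≤ C√X log² X` (`StTh`). (`T ≤ T' ≤ X^{1/10}`.) -/
def StVgn : Prop := ∃ C X0 : ℝ, 1 ≤ C ∧ 2 ≤ X0 ∧ ∀ (X y : ℕ) (T T' α : ℝ), X0 ≤ X → y ≤ X → 1 ≤ T →
  T ≤ T' → T' ≤ (X : ℝ) ^ (1 / 10 : ℝ) →
  (∀ (q : ℕ) (a : ℤ), 1 ≤ q → (q : ℝ) ≤ T → T' / (q * X) < |α - a / q|) →
  ‖Sx th y α‖ ≤ C * X * T ^ (-(1 / 2) : ℝ) * Real.log X ^ 6

/-- FAR (just outside the major arcs). `P^{20}/X < |β| ≤ P^{-97}`, `q₀ ≤ P`.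

Proof. VGN with `T = P^9`, `T' = P^{10}`, `α = a₀/q₀ + β`: let `q' ≤ P^9`. If `a'/q' = a₀/q₀` then
`|α - a'/q'| = |β| > P^{20}/X > P^{10}/(q'X)`. Otherwise `|a'/q' - a₀/q₀| ≥ 1/(q'q₀) ≥ P^{-10}`, so `|α - a'/q'| ≥ P^{-10} - P^{-97} >
P^{10}/X`. So `|Sx th y α| ≤ C X P^{-9/2} log⁶X ≤ X P^{-4}` (`log X ≤ P^{1/100}`). Second part: GAU with `f = th`, fractions `b/c.r`,
`c.r ≤ P`: `√P · X P^{-4}`. -/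
def StFar : Prop := ∃ P0 : ℝ, 2 ≤ P0 ∧ ∀ (P : ℝ) (X y : ℕ) (β : ℝ), P0 ≤ P →
  P ≤ (X : ℝ) ^ (1 / 5000 : ℝ) → Real.log X ≤ P ^ (1 / 100 : ℝ) → y ≤ X → P ^ 20 / X < |β| →
  |β| ≤ P ^ (-97 : ℝ) →
  (∀ (q₀ a₀ : ℕ), 1 ≤ q₀ → (q₀ : ℝ) ≤ P → ‖Sx th y ((a₀ : ℝ) / q₀ + β)‖ ≤ X * P ^ (-4 : ℝ)) ∧
  ∀ c ∈ PS P, ‖Tc c y β‖ ≤ X * P ^ (-(7 / 2) : ℝ)

/-- MID (the primes near fractions with denominator in `(P, D]`, and far from all fractions with denominator `≤ D`),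
`D = ⌊P⌋ Q`.

Proof. VGN with `T = P`, `T' = P^{10}`. First part: let `q' ≤ P < q₀`, both fractions reduced (replace `a'/q'` by its reduced
form, the denominator decreases; `P^{10}/(q'X)` increases: compare with `P^{10}/X`): different, so
`|a₀/q₀ - a'/q'| ≥ 1/(q'q₀) ≥ 1/(PD)`; `D ≥ 2P`.. precisely `1/(q'q₀) ≥ 1/(⌊P⌋ D) ≥ 2/(2D²)·1`, so
`|α - a'/q'| ≥ 1/(q'q₀) - 1/(2D²) ≥ 1/(2D²) > P^{10}/X` (`D ≤ P^{51}`, `P ≤ X^{1/5000}`; `⌊P⌋ ≤ D`). Second part: `nd(α - a'/q') > 1/(2D²) > P^{10}/X`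
(integers shift: `nd` is the distance to the nearest integer and `a' mod q'`). So `|Sx th y α| ≤ C X P^{-1/2}log⁶X ≤ X P^{-2/5}`. -/
def StMid : Prop := ∃ P0 : ℝ, 2 ≤ P0 ∧ ∀ (P : ℝ) (X Q y : ℕ), P0 ≤ P →
  P ≤ (X : ℝ) ^ (1 / 5000 : ℝ) → Real.log X ≤ P ^ (1 / 100 : ℝ) → (Q : ℝ) ≤ P ^ 50 → P ^ 49 ≤ Q →
  y ≤ X →
  (∀ (q₀ a₀ : ℕ) (β : ℝ), P < q₀ → q₀ ≤ ⌊P⌋₊ * Q → Nat.Coprime a₀ q₀ →
    |β| ≤ 1 / (2 * ((⌊P⌋₊ * Q : ℕ) : ℝ) ^ 2) →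
    ‖Sx th y ((a₀ : ℝ) / q₀ + β)‖ ≤ X * P ^ (-(2 / 5) : ℝ)) ∧
  ∀ α : ℝ, (∀ (q a : ℕ), 1 ≤ q → q ≤ ⌊P⌋₊ * Q →
      1 / (2 * ((⌊P⌋₊ * Q : ℕ) : ℝ) ^ 2) < nd (α - (a : ℝ) / q)) →
    ‖Sx th y α‖ ≤ X * P ^ (-(2 / 5) : ℝ)

/-- MTC (the primes on a major arc). `q₀ ≤ P`.

Proof. `e(n a₀/q₀) = (1/φ(q₀))∑_{c.r ∣ q₀} ta c q₀ c(a₀) c(n)` for `(n, q₀) = 1` (`aExp`; the sum there is over `PS q₀` with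
`c.r ∣ q₀`, the same set as here since `q₀ ≤ P`). For a prime `n ∣ q₀` both sides are bounded by `q₀` (`|kap| ≤ 1`, CPS),
and there are at most `q₀` such `n`: error `2q₀² log X ≤ 2P² log X`. -/
def StMtc : Prop := ∀ (P : ℝ) (X y q₀ a₀ : ℕ) (β : ℝ), 1 ≤ q₀ → (q₀ : ℝ) ≤ P → Nat.Coprime a₀ q₀ →
  y ≤ X → 2 ≤ X →
  ‖Sx th y ((a₀ : ℝ) / q₀ + β) - ∑ c ∈ (PS P).filter (fun c => c.r ∣ q₀), kap c q₀ a₀ * Tc c y β‖ ≤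
    2 * P ^ 2 * Real.log X

/-- SUP (final statement of part S).

Proof. Let `Gc` be as in the definitions. `Sx (th - Gr) y α = (F(α) + conj F(-α))/2` with
`F(α) = ∑_{n≤y}(th n - Gc n)e(nα)`, so it suffices that `|F(α)| ≤ X P^{-1/3}` for all `α`; `F` has period `1`, so let
`α ∈ [0,1)`. `D = ⌊P⌋Q`. Case N: `nd(α - a/q) > 1/(2D²)` for all `q ≤ D`: NRN and MID: `≤ X(P^{-80} + P^{-2/5})`. Otherwise there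
are `q₀ ≤ D`, `a₀ ≤ q₀`, `(a₀,q₀) = 1` (reduce; shift by an integer so that `α = a₀/q₀ + β`, `|β| ≤ 1/(2D²) ≤ P^{-97}`; note `0 ≤ α < 1` gives
`a₀ ≤ q₀` up to the case `α` near `1`, `a₀/q₀ = 1/1`; or use periodicity of everything in `a₀` modulo `q₀`).
NRF: `∑ Gc e = ∑_{c} kap c q₀ a₀ kk(β) Tc(β) + O(XP^{-80})`, sum over `c ∈ PS P`, `c.r ∣ q₀`, `q₀/c.r ≤ Q`.
Case 1: `q₀ ≤ P`, `|β| ≤ P^{20}/X`. Then `q₀/c.r ≤ Q` always; MTC: `|F| ≤ ∑_{c.r∣q₀} |kap||1 - kk(β)||Tc| + 2P²log X + XP^{-80}`,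
`|1-kk| ≤ 2πL|β| ≤ 2πP^{-180}`, `|Tc| ≤ 4y`, at most `q₀` characters: `≤ X P^{-1}`.
Case 2: `q₀ ≤ P`, `|β| > P^{20}/X`: FAR: `|Sx th| ≤ XP^{-4}`, and `∑_c |kap||kk||Tc| ≤ P·X P^{-7/2}`.
Case 3: `q₀ > P`: MID for `Sx th`; `|kap c q₀ a₀| ≤ C√P q₀^{-9/10} ≤ C P^{-2/5}` (TA1), and
`∑_{c∈PS P}|Tc(β)| ≤ 5X` if `|β| ≤ P^{20}/X` (hypothesis), `≤ P²·XP^{-7/2}` otherwise (FAR). So `|F| ≤ X(P^{-2/5} + 5CP^{-2/5} + P^{-80})`.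
All are `≤ XP^{-1/3}` for large `P`. -/
def StSup : Prop := ∃ P0 : ℝ, 2 ≤ P0 ∧ ∀ (P : ℝ) (X Q L : ℕ), P0 ≤ P →
  P ≤ (X : ℝ) ^ (1 / 5000 : ℝ) → Real.log X ≤ P ^ (1 / 100 : ℝ) → (Q : ℝ) ≤ P ^ 50 → P ^ 49 ≤ Q →
  (X : ℝ) / (2 * P ^ 200) ≤ L → (L : ℝ) ≤ X / P ^ 200 →
  (∀ (y : ℕ) (β : ℝ), y ≤ X → |β| ≤ P ^ 20 / X → ∑ c ∈ PS P, ‖Tc c y β‖ ≤ 5 * X) →
  ∀ (y : ℕ) (α : ℝ), y ≤ X → ‖Sx (fun n => th n - Gr P Q L n) y α‖ ≤ X * P ^ (-(1 / 3) : ℝ)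

end Pool.Agent.Helper58.PB
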